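import Mathlib
import Pool.Agent.N909.TF.Tools

set_option autoImplicit false

/-! # Palindromes in all bases modulo a fixed integer: lower bounds uniform in the base -/

open Filter
open scoped Topology

namespace Pool.Agent.N256.PB

open Pool.Agent.N909.TF

/-- the palindromes with exactly `j` digits in base `b` -/
def palB (b j : ℕ) : Set ℕ := {t | (Nat.digits b t).length = j ∧ (Nat.digits b t).reverse = Nat.digits b t}

/-- palindromic strings of `j` digits in base `b` (leading zeros allowed) -/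
def G (b : ℕ) : ℕ → Finset ℕ
  | 0 => {0}
  | 1 => Finset.range b
  | (j + 2) => (Finset.range b ×ˢ G b j).image (fun x => b * (x.1 * b ^ j + x.2) + x.1)

lemma step_inj (b j : ℕ) : Set.InjOn (fun x : ℕ × ℕ => b * (x.1 * b ^ j + x.2) + x.1) {x | x.1 < b} := by
  rintro ⟨a, p⟩ hx ⟨c, q⟩ hy h
  simp only [Set.mem_ofPred_eq] at hx hy h
  have h1 : a = c := by
    have := congr_arg (· % b) h
    simp only [Nat.mul_add_mod, Nat.mod_eq_of_lt hx, Nat.mod_eq_of_lt hy] at this
    exact this
  subst h1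
  have hb : 0 < b := by omega
  have h2 : b * (a * b ^ j + p) = b * (a * b ^ j + q) := by omega
  have h3 := Nat.eq_of_mul_eq_mul_left hb h2
  have h4 : p = q := by omega
  rw [h4]

lemma G_spec (b : ℕ) : ∀ j : ℕ, ∀ p : ℕ, p ∈ G b j ↔ ∃ l : List ℕ, l.length = j ∧ l.reverse = l ∧ (∀ x ∈ l, x < b) ∧
    Nat.ofDigits b l = p
  | 0 => by
    intro p
    unfold G
    rw [Finset.mem_singleton]
    constructor
    · rintro rfl
      exact ⟨[], rfl, rfl, by simp, by simp⟩
    · rintro ⟨l, h1, -, -, h4⟩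
      rw [List.length_eq_zero_iff] at h1
      subst h1
      simpa using h4.symm
  | 1 => by
    intro p
    unfold G
    rw [Finset.mem_range]
    constructor
    · intro hp
      exact ⟨[p], rfl, rfl, by simpa using hp, by simp⟩
    · rintro ⟨l, h1, -, h3, h4⟩
      obtain ⟨a, rfl⟩ := List.length_eq_one_iff.1 h1
      simp only [List.mem_singleton, forall_eq, Nat.ofDigits_singleton] at h3 h4
      omega
  | (j + 2) => by
    intro p
    have ih := G_spec b j
    unfold G
    rw [Finset.mem_image]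
    constructor
    · rintro ⟨⟨a, q⟩, hx, rfl⟩
      rw [Finset.mem_product, Finset.mem_range] at hx
      obtain ⟨l, h1, h2, h3, h4⟩ := (ih q).1 hx.2
      refine ⟨a :: (l ++ [a]), ?_, ?_, ?_, ?_⟩
      · simp only [List.length_cons, List.length_append, h1, List.length_nil]
      · simp [h2]
      · intro x hx'
        simp only [List.mem_cons, List.mem_append, List.not_mem_nil, or_false] at hx'
        rcases hx' with h | h | h
        · rw [h]; exact hx.1
        · exact h3 x h
        · rw [h]; exact hx.1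
      · rw [Nat.ofDigits_cons, Nat.ofDigits_append, Nat.ofDigits_singleton, h1, h4]
        simp only
        ring
    · rintro ⟨l, h1, h2, h3, h4⟩
      have hP := List.Palindrome.of_reverse_eq h2
      cases hP with
      | nil => simp at h1
      | singleton x => simp at h1
      | @cons_concat x l' hl' =>
        have hlen : l'.length = j := by
          simp only [List.length_cons, List.length_append, List.length_nil] at h1
          omega
        refine ⟨(x, Nat.ofDigits b l'), ?_, ?_⟩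
        · rw [Finset.mem_product, Finset.mem_range]
          exact ⟨h3 x (by simp), (ih _).2 ⟨l', hlen, hl'.reverse_eq, fun y hy => h3 y (by simp [hy]), rfl⟩⟩
        · rw [← h4, Nat.ofDigits_cons, Nat.ofDigits_append, Nat.ofDigits_singleton, hlen]
          simp only
          ring

/-- palindromes are palindromic strings -/
lemma pal_sub (b j : ℕ) (hb : 2 ≤ b) : palB b j ⊆ (G b j : Set ℕ) := by
  rintro t ⟨h1, h2⟩
  rw [Finset.mem_coe, G_spec]
  exact ⟨Nat.digits b t, h1, h2, fun x hx => Nat.digits_lt_base (by omega) hx, Nat.ofDigits_digits b t⟩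

lemma G_card (b : ℕ) : ∀ j : ℕ, (G b j).card ≤ b ^ ((j + 1) / 2)
  | 0 => by simp [G]
  | 1 => by simp [G]
  | (j + 2) => by
    have ih := G_card b j
    unfold G
    refine Finset.card_image_le.trans ?_
    rw [Finset.card_product, Finset.card_range, show (j + 2 + 1) / 2 = (j + 1) / 2 + 1 by omega, pow_succ, mul_comm]
    exact Nat.mul_le_mul_right b ih

/-- the palindromes with `j + 2` digits and last digit in a given set -/
def PF (b j : ℕ) (D : Finset ℕ) : Finset ℕ := (D ×ˢ G b j).image (fun x => b * (x.1 * b ^ j + x.2) + x.1)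

lemma PF_sub (b j : ℕ) (hb : 2 ≤ b) (D : Finset ℕ) (hD : ∀ a ∈ D, 0 < a ∧ a < b) : (PF b j D : Set ℕ) ⊆ palB b (j + 2) := by
  intro t ht
  rw [Finset.mem_coe] at ht
  unfold PF at ht
  rw [Finset.mem_image] at ht
  obtain ⟨⟨a, q⟩, hx, rfl⟩ := ht
  rw [Finset.mem_product] at hx
  obtain ⟨l, h1, h2, h3, h4⟩ := (G_spec b j q).1 hx.2
  have ha := hD a hx.1
  have e1 : b * (a * b ^ j + q) + a = Nat.ofDigits b (a :: (l ++ [a])) := by
    rw [Nat.ofDigits_cons, Nat.ofDigits_append, Nat.ofDigits_singleton, h1, h4]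
    ring
  have e2 : Nat.digits b (b * (a * b ^ j + q) + a) = a :: (l ++ [a]) := by
    rw [e1]
    apply Nat.digits_ofDigits b (by omega)
    · intro x hx'
      simp only [List.mem_cons, List.mem_append, List.not_mem_nil, or_false] at hx'
      rcases hx' with h | h | h
      · omega
      · exact h3 x h
      · omega
    · intro h
      have h7 : (a :: (l ++ [a])).getLast h = a := by simp [List.getLast_cons]
      rw [h7]
      omega
  unfold palB
  simp only [Set.mem_ofPred_eq, e2]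
  refine ⟨?_, ?_⟩
  · simp only [List.length_cons, List.length_append, h1, List.length_nil]
  · simp [h2]

/-- size of the palindromes -/
lemma pal_size {b j t : ℕ} (hb : 2 ≤ b) (ht : t ∈ palB b (j + 1)) : b ^ j ≤ t ∧ t < b ^ (j + 1) := by
  obtain ⟨h1, -⟩ := ht
  constructor
  · exact (Nat.lt_digits_length_iff (b := b) (k := j) (by omega) t).1 (by omega)
  · have := Nat.lt_base_pow_length_digits (b := b) (m := t) (by omega)
    rwa [h1] at this

/-- the primes dividing `Q` but not `b` -/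
def S' (Q b : ℕ) : Finset ℕ := Q.primeFactors.filter (fun p => ¬ p ∣ b)

/-- the modulus prime to the base -/
def mm (Q b : ℕ) : ℕ := ∏ p ∈ S' Q b, p

lemma S'_prime {Q b p : ℕ} (hp : p ∈ S' Q b) : p.Prime :=
  Nat.prime_of_mem_primeFactors (Finset.mem_filter.1 hp).1

lemma mm_pos (Q b : ℕ) : 0 < mm Q b := Finset.prod_pos fun _ hp => (S'_prime hp).pos

lemma mm_le (Q b : ℕ) (hQ : 0 < Q) : mm Q b ≤ Q := by
  have h1 : mm Q b ∣ Q :=
    (Finset.prod_dvd_prod_of_subset _ _ (fun p => p) (Finset.filter_subset _ _)).trans (Nat.prod_primeFactors_dvd Q)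
  exact Nat.le_of_dvd hQ h1

lemma mm_cop (Q b : ℕ) : Nat.Coprime b (mm Q b) := by
  unfold mm
  refine Nat.Coprime.prod_right fun p hp => ?_
  have hpp := S'_prime hp
  rw [Nat.coprime_comm, Nat.Prime.coprime_iff_not_dvd hpp]
  exact (Finset.mem_filter.1 hp).2

/-- a sufficient condition for coprimality -/
lemma coprime_of (Q b y a : ℕ) (hQ : 0 < Q) (ha : Nat.Coprime a Q) (h : Nat.Coprime (b * y + a) (mm Q b)) :
    Nat.Coprime (b * y + a) Q := by
  rw [coprime_iff_primes]
  intro l hl hlQ hlt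
  by_cases hb : l ∣ b
  · have h1 : l ∣ a := (Nat.dvd_add_right (hb.mul_right y)).1 hlt
    exact (coprime_iff_primes _ _).1 ha l hl hlQ h1
  · have h2 : l ∣ mm Q b := Finset.dvd_prod_of_mem _ (Finset.mem_filter.2 ⟨Nat.mem_primeFactors.2 ⟨hl, hlQ, hQ.ne'⟩, hb⟩)
    exact (coprime_iff_primes _ _).1 h l hl h2 hlt

open Classical in
/-- the indicator of the units -/
noncomputable def un (m : ℕ) (v : ZMod m) : ℕ := if IsUnit v then 1 else 0

/-- the sums over the palindromic strings of `2 n + 1` digits -/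
noncomputable def E (b m : ℕ) (z : ZMod m) (n : ℕ) (v : ZMod m) : ℕ := ∑ p ∈ G b (2 * n + 1), un m (v + z ^ n * (p : ZMod m))

/-- the coefficients -/
def dd (b m : ℕ) (z : ZMod m) (j : ℕ) : ZMod m := (b : ZMod m) ^ j + z ^ j

lemma E_succ (b m : ℕ) (z : ZMod m) (hz : (b : ZMod m) * z = 1) (n : ℕ) (v : ZMod m) :
    E b m z (n + 1) v = ∑ a ∈ Finset.range b, E b m z n (v + (a : ZMod m) * dd b m z (n + 1)) := by
  unfold E
  rw [show 2 * (n + 1) + 1 = 2 * n + 1 + 2 by ring, G, Finset.sum_image, Finset.sum_product]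
  · refine Finset.sum_congr rfl fun a _ => Finset.sum_congr rfl fun p _ => ?_
    congr 1
    unfold dd
    push_cast
    have h1 : z ^ (n + 1) * (b : ZMod m) ^ (n + 1) = 1 := by
      rw [← mul_pow, mul_comm, hz, one_pow]
    have e1 : z ^ (n + 1) * ((b : ZMod m) * ((a : ZMod m) * (b : ZMod m) ^ (2 * n + 1) + p) + a) =
        (z ^ (n + 1) * (b : ZMod m) ^ (n + 1)) * ((a : ZMod m) * (b : ZMod m) ^ (n + 1)) +
          ((b : ZMod m) * z) * (z ^ n * p) + z ^ (n + 1) * a := by
      ring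
    rw [e1, h1, hz]
    ring
  · intro x hx y hy h
    refine step_inj b (2 * n + 1) ?_ ?_ h
    · exact Finset.mem_range.1 (Finset.mem_product.1 (Finset.mem_coe.1 hx)).1
    · exact Finset.mem_range.1 (Finset.mem_product.1 (Finset.mem_coe.1 hy)).1

/-- the mass grows by the factor `b` in each step -/
lemma E_grow (b m : ℕ) (z : ZMod m) (hz : (b : ZMod m) * z = 1) (c n : ℕ) (h : ∀ v, c ≤ E b m z n v) (i : ℕ) :
    ∀ v, c * b ^ i ≤ E b m z (n + i) v := by
  induction i with
  | zero => simpa using h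
  | succ i ih =>
    intro v
    rw [← add_assoc, E_succ b m z hz]
    calc c * b ^ (i + 1) = ∑ _a ∈ Finset.range b, c * b ^ i := by
          rw [Finset.sum_const, Finset.card_range, smul_eq_mul]
          ring
      _ ≤ _ := Finset.sum_le_sum fun a _ => ih _

lemma E_mono (b m : ℕ) (hb : 2 ≤ b) (z : ZMod m) (hz : (b : ZMod m) * z = 1) (n i : ℕ) (v : ZMod m) :
    E b m z n v ≤ E b m z (n + i) v := by
  induction i with
  | zero => exact le_rfl
  | succ i ih =>
    refine ih.trans ?_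
    rw [← add_assoc, E_succ b m z hz]
    have := Finset.single_le_sum (f := fun a : ℕ => E b m z (n + i) (v + (a : ZMod m) * dd b m z (n + i + 1)))
      (fun _ _ => Nat.zero_le _) (Finset.mem_range.2 (show 0 < b by omega))
    simpa using this

lemma E_reach (b m : ℕ) (hb : 2 ≤ b) (z : ZMod m) (hz : (b : ZMod m) * z = 1) (K : ℕ) (hK : 0 < K)
    (h2 : ∀ i, dd b m z (K * (i + 1)) = 2) (w : ZMod m) (i : ℕ) :
    ∀ t : ℕ, t ≤ i → E b m z 0 w ≤ E b m z (K * i) (w - 2 * t) := by
  obtain ⟨K', rfl⟩ : ∃ K', K = K' + 1 := ⟨K - 1, by omega⟩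
  induction i with
  | zero =>
    intro t ht
    have : t = 0 := by omega
    subst this
    simp
  | succ i ih =>
    intro t ht
    rcases Nat.lt_or_ge i t with h | h
    · have e : t = i + 1 := by omega
      subst e
      have h1 := ih i le_rfl
      have h3 := E_mono b m hb z hz ((K' + 1) * i) K' (w - 2 * i)
      have e2 : (K' + 1) * (i + 1) = (K' + 1) * i + K' + 1 := by ring
      have h4 := Finset.single_le_sum (f := fun a : ℕ => E b m z ((K' + 1) * i + K')
        (w - 2 * ((i + 1 : ℕ) : ZMod m) + (a : ZMod m) * dd b m z ((K' + 1) * i + K' + 1)))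
        (fun _ _ => Nat.zero_le _) (Finset.mem_range.2 (show 1 < b by omega))
      rw [← E_succ b m z hz, ← e2, h2 i] at h4
      have e1 : w - 2 * ((i + 1 : ℕ) : ZMod m) + ((1 : ℕ) : ZMod m) * 2 = w - 2 * i := by
        push_cast
        ring
      rw [e1] at h4
      exact h1.trans (h3.trans h4)
    · have h1 := ih t h
      have h3 := E_mono b m hb z hz ((K' + 1) * i) (K' + 1) (w - 2 * t)
      rw [show (K' + 1) * (i + 1) = (K' + 1) * i + (K' + 1) by ring]
      exact h1.trans h3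

lemma E_zero (b m : ℕ) (z : ZMod m) (v : ZMod m) : E b m z 0 v = ∑ a ∈ Finset.range b, un m (v + (a : ZMod m)) := by
  unfold E
  simp [G]

/-- after `K * m` steps every value is positive -/
lemma E_pos (b m : ℕ) [NeZero m] (hb : 2 ≤ b) (z : ZMod m) (hz : (b : ZMod m) * z = 1) (K : ℕ) (hK : 0 < K)
    (h2 : ∀ i, dd b m z (K * (i + 1)) = 2) (v : ZMod m) : 1 ≤ E b m z (K * m) v := by
  classical
  have hu : ∀ w : ZMod m, ∀ a : ℕ, a < 2 → IsUnit (w + (a : ZMod m)) → 1 ≤ E b m z 0 w := by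
    intro w a ha hw
    rw [E_zero]
    have h3 := Finset.single_le_sum (f := fun a : ℕ => un m (w + (a : ZMod m)))
      (fun _ _ => Nat.zero_le _) (Finset.mem_range.2 (show a < b by omega))
    refine le_trans ?_ h3
    unfold un
    rw [if_pos hw]
  -- v = w - 2 t with w = 0 or 1
  obtain ⟨w, t, hw, ht, hv⟩ : ∃ w t : ℕ, w < 2 ∧ t ≤ m ∧ v = (w : ZMod m) - 2 * (t : ZMod m) := by
    have hval := ZMod.val_lt v
    have e0 : ((m - v.val : ℕ) : ZMod m) = -v := by
      rw [Nat.cast_sub hval.le, ZMod.natCast_self, ZMod.natCast_val, ZMod.cast_id', id, zero_sub]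
    refine ⟨(m - v.val) % 2, ((m - v.val) + (m - v.val) % 2) / 2, Nat.mod_lt _ (by norm_num), by omega, ?_⟩
    have e1 : 2 * (((m - v.val) + (m - v.val) % 2) / 2) = (m - v.val) + (m - v.val) % 2 := by omega
    have e2 := congr_arg (fun x : ℕ => (x : ZMod m)) e1
    simp only [Nat.cast_mul, Nat.cast_ofNat, Nat.cast_add, e0] at e2
    rw [e2]
    ring
  have h3 : 1 ≤ E b m z 0 (w : ZMod m) := by
    rcases Nat.eq_zero_or_pos w with h | h
    · exact hu w 1 (by norm_num) (by simp [h])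
    · have : w = 1 := by omega
      exact hu w 0 (by norm_num) (by simp [this])
  rw [hv]
  exact h3.trans (E_reach b m hb z hz K hK h2 (w : ZMod m) m t ht)

/-- the number of the palindromes coprime to `Q` -/
noncomputable def NN (Q b j : ℕ) : ℕ := (palB b j ∩ {t | Nat.Coprime t Q}).ncard

lemma pal_finite (b j : ℕ) (hb : 2 ≤ b) : (palB b j).Finite := (G b j).finite_toSet.subset (pal_sub b j hb)

/-- lower bound of the number of palindromes coprime to `Q` -/
lemma NN_ge (Q b : ℕ) (hQ : 0 < Q) (hb : 2 ≤ b) (z : ZMod (mm Q b)) (hz : (b : ZMod (mm Q b)) * z = 1) (n : ℕ)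
    (D : Finset ℕ) (hD : ∀ a ∈ D, 0 < a ∧ a < b ∧ Nat.Coprime a Q) :
    ∑ a ∈ D, E b (mm Q b) z n ((a : ZMod (mm Q b)) * dd b (mm Q b) z (n + 1)) ≤ NN Q b (2 * n + 3) := by
  classical
  have h1 : (((PF b (2 * n + 1) D).filter (fun t => Nat.Coprime t Q) : Finset ℕ) : Set ℕ) ⊆
      palB b (2 * n + 3) ∩ {t | Nat.Coprime t Q} := by
    intro t ht
    rw [Finset.mem_coe, Finset.mem_filter] at ht
    exact ⟨PF_sub b (2 * n + 1) hb D (fun a ha => ⟨(hD a ha).1, (hD a ha).2.1⟩) (Finset.mem_coe.2 ht.1), ht.2⟩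
  have h2 := Set.ncard_le_ncard h1 ((pal_finite b _ hb).subset Set.inter_subset_left)
  rw [Set.ncard_coe_finset] at h2
  refine le_trans ?_ h2
  rw [Finset.card_filter]
  unfold PF
  rw [Finset.sum_image, Finset.sum_product]
  · refine Finset.sum_le_sum fun a ha => ?_
    unfold E
    refine Finset.sum_le_sum fun p _ => ?_
    have hzu : IsUnit (z ^ (n + 1)) := by
      refine IsUnit.pow _ ?_
      exact IsUnit.of_mul_eq_one (b : ZMod (mm Q b)) (by rw [mul_comm]; exact hz)
    have h1 : z ^ (n + 1) * (b : ZMod (mm Q b)) ^ (n + 1) = 1 := by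
      rw [← mul_pow, mul_comm, hz, one_pow]
    have e1 : z ^ (n + 1) * ((b * (a * b ^ (2 * n + 1) + p) + a : ℕ) : ZMod (mm Q b)) =
        (a : ZMod (mm Q b)) * dd b (mm Q b) z (n + 1) + z ^ n * p := by
      unfold dd
      push_cast
      have e2 : z ^ (n + 1) * ((b : ZMod (mm Q b)) * ((a : ZMod (mm Q b)) * (b : ZMod (mm Q b)) ^ (2 * n + 1) + p) + a) =
          (z ^ (n + 1) * (b : ZMod (mm Q b)) ^ (n + 1)) * ((a : ZMod (mm Q b)) * (b : ZMod (mm Q b)) ^ (n + 1)) +
            ((b : ZMod (mm Q b)) * z) * (z ^ n * p) + z ^ (n + 1) * a := by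
        ring
      rw [e2, h1, hz]
      ring
    unfold un
    by_cases h : IsUnit ((a : ZMod (mm Q b)) * dd b (mm Q b) z (n + 1) + z ^ n * (p : ZMod (mm Q b)))
    · have key : Nat.Coprime (b * (a * b ^ (2 * n + 1) + p) + a) Q := by
        refine coprime_of Q b _ a hQ (hD a ha).2.2 ?_
        rw [← ZMod.isUnit_iff_coprime]
        rw [← e1, IsUnit.mul_iff] at h
        exact h.2
      rw [if_pos h, if_pos key]
    · rw [if_neg h]
      exact Nat.zero_le _
  · intro x hx y hy h
    refine step_inj b (2 * n + 1) ?_ ?_ h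
    · exact (hD _ (Finset.mem_product.1 (Finset.mem_coe.1 hx)).1).2.1
    · exact (hD _ (Finset.mem_product.1 (Finset.mem_coe.1 hy)).1).2.1

lemma exists_inv (Q b : ℕ) : ∃ z : ZMod (mm Q b), (b : ZMod (mm Q b)) * z = 1 :=
  ((ZMod.isUnit_iff_coprime b _).2 (mm_cop Q b)).exists_right_inv

/-- small bases -/
lemma small_base (Q b : ℕ) (hQ : 0 < Q) (hb : 2 ≤ b) :
    ∃ κ : ℝ, 0 < κ ∧ ∀ᶠ n : ℕ in atTop, κ * (b : ℝ) ^ (n + 1) ≤ NN Q b (2 * n + 1) := by
  obtain ⟨z, hz⟩ := exists_inv Q b
  have : NeZero (mm Q b) := ⟨(mm_pos Q b).ne'⟩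
  have hten : IsUnit ((b : ℕ) : ZMod (mm Q b)) := (ZMod.isUnit_iff_coprime b _).2 (mm_cop Q b)
  set K := Nat.totient (mm Q b) with hKdef
  have hK : 0 < K := Nat.totient_pos.2 (mm_pos Q b)
  have hKb : (b : ZMod (mm Q b)) ^ K = 1 := by
    have h := ZMod.pow_totient (hten.unit)
    have h' := congr_arg (fun u : (ZMod (mm Q b))ˣ => (u : ZMod (mm Q b))) h
    simp only [Units.val_pow_eq_pow_val, IsUnit.unit_spec, Units.val_one] at h'
    exact h'
  have hKz : z ^ K = 1 := by
    have : ((b : ZMod (mm Q b)) * z) ^ K = 1 := by rw [hz, one_pow]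
    rwa [mul_pow, hKb, one_mul] at this
  have hdK : ∀ i, dd b (mm Q b) z (K * (i + 1)) = 2 := by
    intro i
    unfold dd
    rw [pow_mul, pow_mul, hKb, hKz, one_pow]
    norm_num
  have hpos := E_pos b (mm Q b) hb z hz K hK hdK
  have hb0 : (0 : ℝ) < b := by
    have : 0 < b := by omega
    exact_mod_cast this
  refine ⟨1 / (b : ℝ) ^ (K * mm Q b + 2), by positivity, ?_⟩
  filter_upwards [eventually_ge_atTop (K * mm Q b + 1)] with n hn
  obtain ⟨i, rfl⟩ : ∃ i, n = K * mm Q b + i + 1 := ⟨n - (K * mm Q b + 1), by omega⟩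
  have h1 := E_grow b (mm Q b) z hz 1 (K * mm Q b) hpos i
  have h2 := NN_ge Q b hQ hb z hz (K * mm Q b + i) {1} (by
    intro a ha
    rw [Finset.mem_singleton] at ha
    subst ha
    exact ⟨one_pos, by omega, Nat.coprime_one_left Q⟩)
  rw [Finset.sum_singleton] at h2
  have h3 : b ^ i ≤ NN Q b (2 * (K * mm Q b + i) + 3) := by
    refine le_trans ?_ h2
    have := h1 (((1 : ℕ) : ZMod (mm Q b)) * dd b (mm Q b) z (K * mm Q b + i + 1))
    rwa [one_mul] at this
  have h4 : (b : ℝ) ^ i ≤ NN Q b (2 * (K * mm Q b + i + 1) + 1) := by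
    rw [show 2 * (K * mm Q b + i + 1) + 1 = 2 * (K * mm Q b + i) + 3 by ring]
    exact_mod_cast h3
  refine le_trans (le_of_eq ?_) h4
  have e : (b : ℝ) ^ (K * mm Q b + i + 1 + 1) = (b : ℝ) ^ (K * mm Q b + 2) * (b : ℝ) ^ i := by
    rw [← pow_add]
    congr 1
    ring
  have hp : (0 : ℝ) < (b : ℝ) ^ (K * mm Q b + 2) := by positivity
  rw [e, one_div, inv_mul_cancel_left₀ hp.ne']

/-- the number of integers in a residue class below `b` -/
lemma class_ge (r b : ℕ) (hr : 0 < r) (hb : 2 * r + 2 ≤ b) :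
    b ≤ 4 * r * ((Finset.Ioo 0 b).filter (fun a => a ≡ 1 [MOD r])).card := by
  have h1 := many_class r 1 (b - 1) hr
  have h2 : Finset.Ioo 0 b = Finset.Ioc 0 (b - 1) := by
    ext a
    rw [Finset.mem_Ioo, Finset.mem_Ioc]
    omega
  rw [h2]
  have h3 : b ≤ 4 * r * ((b - 1) / r) := by
    have := Nat.div_add_mod (b - 1) r
    have h4 := Nat.mod_lt (b - 1) hr
    have h5 : 4 * r * ((b - 1) / r) = 4 * (r * ((b - 1) / r)) := by ring
    rw [h5]
    omega
  exact h3.trans (Nat.mul_le_mul_left _ h1)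

/-- large bases -/
lemma large_base (Q b : ℕ) (hQ : 0 < Q) (hb : 2 * Q + 2 ≤ b) (n : ℕ) :
    b ^ (n + 1) ≤ 16 * Q * Q * NN Q b (2 * n + 1) := by
  classical
  have hb2 : 2 ≤ b := by omega
  obtain ⟨z, hz⟩ := exists_inv Q b
  have : NeZero (mm Q b) := ⟨(mm_pos Q b).ne'⟩
  set D := (Finset.Ioo 0 b).filter (fun a => a ≡ 1 [MOD Q]) with hDdef
  have hD : ∀ a ∈ D, 0 < a ∧ a < b ∧ Nat.Coprime a Q := by
    intro a ha
    rw [hDdef, Finset.mem_filter, Finset.mem_Ioo] at ha
    refine ⟨ha.1.1, ha.1.2, ?_⟩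
    have := ha.2.gcd_eq
    rw [Nat.gcd_one_left] at this
    exact this
  have hDc : b ≤ 4 * Q * D.card := class_ge Q b hQ hb
  rcases Nat.eq_zero_or_pos n with h0 | h0
  · subst h0
    have h1 : D.card ≤ NN Q b (2 * 0 + 1) := by
      unfold NN
      rw [← Set.ncard_coe_finset]
      apply Set.ncard_le_ncard _ ((pal_finite b _ hb2).subset Set.inter_subset_left)
      intro a ha
      have h3 := hD a (Finset.mem_coe.1 ha)
      refine ⟨?_, h3.2.2⟩
      unfold palB
      rw [Set.mem_ofPred_eq, Nat.digits_of_lt b a h3.1.ne' h3.2.1]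
      simp
    rw [zero_add, pow_one]
    calc b ≤ 4 * Q * D.card := hDc
      _ ≤ 16 * Q * Q * NN Q b (2 * 0 + 1) := by
        have : 4 * Q ≤ 16 * Q * Q := by nlinarith
        exact Nat.mul_le_mul this h1
  · obtain ⟨k, rfl⟩ : ∃ k, n = k + 1 := ⟨n - 1, by omega⟩
    -- lower bound of E 0
    have hE0 : ∀ v : ZMod (mm Q b), b / Q ≤ E b (mm Q b) z 0 v := by
      intro v
      have hcf : E b (mm Q b) z 0 v = ((Finset.range b).filter (fun a : ℕ => IsUnit (v + (a : ZMod (mm Q b))))).card := by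
        rw [E_zero, Finset.card_filter]
        refine Finset.sum_congr rfl fun a _ => ?_
        unfold un
        by_cases h : IsUnit (v + (a : ZMod (mm Q b)))
        · rw [if_pos h, if_pos h]
        · rw [if_neg h, if_neg h]
      rw [hcf]
      have hmQ : mm Q b ≤ Q := mm_le Q b hQ
      have hmpos : 0 < mm Q b := mm_pos Q b
      -- the class of `1 - v`
      set s : ℕ := (1 - v).val with hs
      have hsv : (s : ZMod (mm Q b)) = 1 - v := by rw [hs, ZMod.natCast_val, ZMod.cast_id', id]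
      have hsm : s < mm Q b := ZMod.val_lt _
      calc b / Q ≤ b / mm Q b := Nat.div_le_div_left hmQ hmpos
        _ = ((Finset.range (b / mm Q b)).image (fun i => s + i * mm Q b)).card := by
            rw [Finset.card_image_of_injective, Finset.card_range]
            intro x y hxy
            simp only at hxy
            have : x * mm Q b = y * mm Q b := by omega
            exact Nat.eq_of_mul_eq_mul_right hmpos this
        _ ≤ _ := by
            apply Finset.card_le_card
            intro a ha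
            rw [Finset.mem_image] at ha
            obtain ⟨i, hi, rfl⟩ := ha
            rw [Finset.mem_range] at hi
            rw [Finset.mem_filter, Finset.mem_range]
            have h3 : (i + 1) * mm Q b ≤ b := (Nat.mul_le_mul_right (mm Q b) hi).trans (Nat.div_mul_le_self b (mm Q b))
            refine ⟨by rw [add_mul, one_mul] at h3; omega, ?_⟩
            push_cast
            rw [hsv, ZMod.natCast_self, mul_zero, add_zero, add_sub_cancel]
            exact isUnit_one
    have h1 := E_grow b (mm Q b) z hz (b / Q) 0 hE0 k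
    simp only [zero_add] at h1
    have h2 := NN_ge Q b hQ hb2 z hz k D hD
    have h3 : D.card * (b / Q * b ^ k) ≤ NN Q b (2 * k + 3) := by
      refine le_trans ?_ h2
      rw [← smul_eq_mul]
      exact Finset.card_nsmul_le_sum _ _ _ fun a _ => h1 _
    have h4 : b ≤ 4 * Q * (b / Q) := by
      have := Nat.div_add_mod b Q
      have h4 := Nat.mod_lt b hQ
      have h5 : 4 * Q * (b / Q) = 4 * (Q * (b / Q)) := by ring
      rw [h5]
      omega
    rw [show 2 * (k + 1) + 1 = 2 * k + 3 by ring]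
    calc b ^ (k + 1 + 1) = b * (b * b ^ k) := by ring
      _ ≤ (4 * Q * D.card) * ((4 * Q * (b / Q)) * b ^ k) :=
          Nat.mul_le_mul hDc (Nat.mul_le_mul_right _ h4)
      _ = 16 * Q * Q * (D.card * (b / Q * b ^ k)) := by ring
      _ ≤ _ := Nat.mul_le_mul_left _ h3

lemma exists_low (s : Finset ℕ) (f : ℕ → ℝ) (hf : ∀ b ∈ s, 0 < f b) : ∃ c : ℝ, 0 < c ∧ ∀ b ∈ s, c ≤ f b := by
  classical
  induction s using Finset.induction_on with
  | empty => exact ⟨1, one_pos, by simp⟩
  | insert a s ha ih =>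
    obtain ⟨c, hc, h⟩ := ih (fun b hb => hf b (Finset.mem_insert_of_mem hb))
    refine ⟨min c (f a), lt_min hc (hf a (Finset.mem_insert_self a s)), fun b hb => ?_⟩
    rcases Finset.mem_insert.1 hb with h1 | h1
    · rw [h1]; exact min_le_right _ _
    · exact (min_le_left _ _).trans (h b h1)

lemma exists_up (s : Finset ℕ) (f : ℕ → ℝ) : ∃ c : ℝ, ∀ b ∈ s, f b ≤ c := by
  classical
  induction s using Finset.induction_on with
  | empty => exact ⟨1, by simp⟩
  | insert a s ha ih =>
    obtain ⟨c, h⟩ := ih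
    refine ⟨max c (f a), fun b hb => ?_⟩
    rcases Finset.mem_insert.1 hb with h1 | h1
    · rw [h1]; exact le_max_right _ _
    · exact (h b h1).trans (le_max_left _ _)

/-- **uniform lower bound** -/
theorem NN_lower (Q : ℕ) (hQ : 0 < Q) :
    ∃ κ X : ℝ, 0 < κ ∧ ∀ b n : ℕ, 2 ≤ b → X ≤ (b : ℝ) ^ (n + 1) → κ * (b : ℝ) ^ (n + 1) ≤ NN Q b (2 * n + 1) := by
  classical
  have h1 : ∀ b ∈ Finset.Ico 2 (2 * Q + 2), ∃ κ X : ℝ, 0 < κ ∧ ∀ n : ℕ, X ≤ (b : ℝ) ^ (n + 1) →
      κ * (b : ℝ) ^ (n + 1) ≤ NN Q b (2 * n + 1) := by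
    intro b hb
    rw [Finset.mem_Ico] at hb
    obtain ⟨κ, hκ, hev⟩ := small_base Q b hQ hb.1
    obtain ⟨N, hN⟩ := eventually_atTop.1 hev
    refine ⟨κ, (b : ℝ) ^ (N + 1), hκ, fun n hn => hN n ?_⟩
    have hb1 : (1 : ℝ) < b := by exact_mod_cast hb.1
    have := (pow_le_pow_iff_right₀ hb1).1 hn
    omega
  choose! κ X hκ hX using h1
  set κ0 : ℝ := 1 / (16 * Q * Q) with hκ0
  have hQ' : (0 : ℝ) < Q := by exact_mod_cast hQ
  have hκ0' : 0 < κ0 := by positivity
  -- minimum and maximum over the small bases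
  obtain ⟨κ1, hκ1, hκ1'⟩ := exists_low (Finset.Ico 2 (2 * Q + 2)) κ hκ
  obtain ⟨X1, hX1⟩ := exists_up (Finset.Ico 2 (2 * Q + 2)) X
  refine ⟨min κ0 κ1, X1, lt_min hκ0' hκ1, fun b n hb hn => ?_⟩
  have hbp : (0 : ℝ) ≤ (b : ℝ) ^ (n + 1) := by positivity
  by_cases h : b < 2 * Q + 2
  · have hmem : b ∈ Finset.Ico 2 (2 * Q + 2) := Finset.mem_Ico.2 ⟨hb, h⟩
    refine le_trans ?_ (hX b hmem n ((hX1 b hmem).trans hn))
    exact mul_le_mul_of_nonneg_right ((min_le_right _ _).trans (hκ1' b hmem)) hbp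
  · have h2 := large_base Q b hQ (by omega) n
    have h3 : (b : ℝ) ^ (n + 1) ≤ 16 * Q * Q * NN Q b (2 * n + 1) := by exact_mod_cast h2
    calc min κ0 κ1 * (b : ℝ) ^ (n + 1) ≤ κ0 * (b : ℝ) ^ (n + 1) := mul_le_mul_of_nonneg_right (min_le_left _ _) hbp
      _ ≤ κ0 * (16 * Q * Q * NN Q b (2 * n + 1)) := mul_le_mul_of_nonneg_left h3 hκ0'.le
      _ = _ := by
        rw [hκ0]
        field_simp

end Pool.Agent.N256.PB
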