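import Mathlib
import Pool.Agent.N256.PL.Base

set_option autoImplicit false

/-! # Palindromes in all bases: the laws of large numbers -/

open MeasureTheory Filter Set
open scoped Topology

namespace Pool.Agent.N256.PB

open Pool.Agent.R528.RM Pool.Agent.N909.TF

/-! ### The family of all pairs (base, length) -/

/-- the base of a code -/
def bB (n : ℕ) : ℕ := (Nat.unpair n).1
/-- the length parameter of a code -/
def nN (n : ℕ) : ℕ := (Nat.unpair n).2

open Classical in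
/-- palindromes with `2 n + 1` digits as a finite set -/
noncomputable def fam (n : ℕ) : Finset ℕ :=
  if 2 ≤ bB n then (G (bB n) (2 * nN n + 1)).filter (fun t => t ∈ palB (bB n) (2 * nN n + 1)) else ∅

lemma mem_fam {n : ℕ} (hb : 2 ≤ bB n) (t : ℕ) : t ∈ fam n ↔ t ∈ palB (bB n) (2 * nN n + 1) := by
  classical
  unfold fam
  rw [if_pos hb, Finset.mem_filter]
  exact ⟨fun h => h.2, fun h => ⟨Finset.mem_coe.1 (pal_sub _ _ hb h), h⟩⟩

lemma fam_pal {n t : ℕ} (ht : t ∈ fam n) : 2 ≤ bB n ∧ t ∈ palB (bB n) (2 * nN n + 1) := by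
  classical
  by_cases hb : 2 ≤ bB n
  · exact ⟨hb, (mem_fam hb t).1 ht⟩
  · unfold fam at ht
    rw [if_neg hb] at ht
    exact absurd ht (Finset.notMem_empty _)

lemma card_cop (Q : ℕ) {n : ℕ} (hb : 2 ≤ bB n) : (cop (fam n) (fun t => {t}) Q).card = NN Q (bB n) (2 * nN n + 1) := by
  classical
  unfold NN
  rw [← Set.ncard_coe_finset]
  congr 1
  ext t
  unfold cop
  simp only [Finset.coe_filter, Finset.mem_singleton, forall_eq, mem_fam hb, Set.mem_ofPred_eq, Set.mem_inter_iff]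

lemma card_cho {Ω : Type} (A : ℕ → Set Ω) {n : ℕ} (hb : 2 ≤ bB n) (ω : Ω) :
    (cho A (fam n) (fun t => {t}) ω).card = (palB (bB n) (2 * nN n + 1) ∩ {t | ω ∈ A t}).ncard := by
  classical
  rw [← Set.ncard_coe_finset]
  congr 1
  ext t
  unfold cho
  simp only [Finset.coe_filter, Finset.mem_singleton, forall_eq, mem_fam hb, Set.mem_ofPred_eq, Set.mem_inter_iff]

/-- a palindrome is determined by its leading digits -/
lemma div_inj (b n : ℕ) (hb : 2 ≤ b) : Set.InjOn (fun t : ℕ => t / b ^ n) (palB b (2 * n + 1)) := by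
  rintro t ⟨h1, h2⟩ s ⟨h3, h4⟩ h
  simp only at h
  rw [Nat.self_div_pow_eq_ofDigits_drop n t hb, Nat.self_div_pow_eq_ofDigits_drop n s hb] at h
  have h5 := Nat.ofDigits_inj_of_len_eq (by omega : 1 < b) (by rw [List.length_drop, List.length_drop, h1, h3])
    (fun x hx => Nat.digits_lt_base (by omega) (List.mem_of_mem_drop hx))
    (fun x hx => Nat.digits_lt_base (by omega) (List.mem_of_mem_drop hx)) h
  have key : ∀ l : List ℕ, l.length = 2 * n + 1 → l.reverse = l → l = ((l.drop n).drop 1).reverse ++ l.drop n := by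
    intro l hl hr
    have e1 : l.take n = ((l.drop n).drop 1).reverse := by
      conv_lhs => rw [← hr, List.take_reverse]
      rw [hl, List.drop_drop]
      congr 2
      omega
    rw [← e1, List.take_append_drop]
  have h6 : Nat.digits b t = Nat.digits b s := by
    rw [key _ h1 h2, key _ h3 h4, h5]
  exact Nat.digits_inj_iff.1 h6

/-- the size parameter -/
noncomputable def uU (n : ℕ) : ℝ := (bB n : ℝ) ^ (nN n + 1)

/-- the scale of the logarithms -/
noncomputable def LL (n : ℕ) : ℝ := (2 * nN n + 1) * Real.log (bB n)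

lemma u_tendsto : Tendsto uU (atTop ⊓ 𝓟 {n | 2 ≤ bB n}) atTop := by
  rw [tendsto_atTop]
  intro a
  rw [eventually_inf_principal]
  obtain ⟨N, hN⟩ := exists_nat_ge a
  filter_upwards [eventually_ge_atTop ((N + 1) ^ 2)] with n hn hb
  refine hN.trans ?_
  unfold uU
  by_contra hcon
  push Not at hcon
  have h1 : bB n ^ (nN n + 1) < N := by exact_mod_cast hcon
  have hb' : 2 ≤ bB n := hb
  have h2 : bB n ≤ bB n ^ (nN n + 1) := Nat.le_self_pow (by omega) _
  have h3 : nN n < bB n ^ (nN n + 1) := by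
    calc nN n < 2 ^ nN n := Nat.lt_two_pow_self
      _ ≤ 2 ^ (nN n + 1) := Nat.pow_le_pow_right (by norm_num) (by omega)
      _ ≤ _ := Nat.pow_le_pow_left hb' _
  have h4 := Nat.pair_lt_max_add_one_sq (bB n) (nN n)
  have h5 : Nat.pair (bB n) (nN n) = n := Nat.pair_unpair n
  rw [h5] at h4
  have h6 : max (bB n) (nN n) + 1 ≤ N + 1 := by
    rcases le_total (bB n) (nN n) with h | h
    · rw [max_eq_right h]; omega
    · rw [max_eq_left h]; omega
  have h7 := Nat.pow_le_pow_left h6 2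
  omega

lemma L_bounds {n : ℕ} (hb : 2 ≤ bB n) : Real.log (uU n) ≤ LL n ∧ LL n ≤ 2 * Real.log (uU n) := by
  unfold uU LL
  rw [Real.log_pow]
  have hb' : (1 : ℝ) < bB n := by exact_mod_cast hb
  have hl : 0 < Real.log (bB n : ℝ) := Real.log_pos hb'
  have hn : (0 : ℝ) ≤ nN n := Nat.cast_nonneg _
  push_cast
  constructor <;> nlinarith

lemma L_tendsto : Tendsto LL (atTop ⊓ 𝓟 {n | 2 ≤ bB n}) atTop := by
  refine tendsto_atTop_mono' _ ?_ (Real.tendsto_log_atTop.comp u_tendsto)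
  rw [EventuallyLE, eventually_inf_principal]
  exact Eventually.of_forall fun n hn => (L_bounds hn).1

lemma log_code {n : ℕ} (hb : 2 ≤ bB n) (hn : 0 < n) : Real.log n ≤ 4 * Real.log (uU n) := by
  have hb1 : (1 : ℝ) ≤ bB n := by
    have : 1 ≤ bB n := by omega
    exact_mod_cast this
  have h4 := Nat.pair_lt_max_add_one_sq (bB n) (nN n)
  have h5 : Nat.pair (bB n) (nN n) = n := Nat.pair_unpair n
  rw [h5] at h4
  have h2 : bB n ≤ bB n ^ (nN n + 1) := Nat.le_self_pow (by omega) _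
  have h3 : nN n < bB n ^ (nN n + 1) := by
    calc nN n < 2 ^ nN n := Nat.lt_two_pow_self
      _ ≤ 2 ^ (nN n + 1) := Nat.pow_le_pow_right (by norm_num) (by omega)
      _ ≤ _ := Nat.pow_le_pow_left hb _
  have h6 : max (bB n) (nN n) + 1 ≤ (bB n ^ (nN n + 1)) ^ 2 := by
    have h7 : 2 ≤ bB n ^ (nN n + 1) := hb.trans h2
    have h8 : 2 * bB n ^ (nN n + 1) ≤ (bB n ^ (nN n + 1)) ^ 2 := by
      rw [pow_two]
      exact Nat.mul_le_mul_right _ h7
    rcases le_total (bB n) (nN n) with h | h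
    · rw [max_eq_right h]; omega
    · rw [max_eq_left h]; omega
  have h7 : n ≤ (bB n ^ (nN n + 1)) ^ 4 := by
    calc n ≤ (max (bB n) (nN n) + 1) ^ 2 := h4.le
      _ ≤ ((bB n ^ (nN n + 1)) ^ 2) ^ 2 := Nat.pow_le_pow_left h6 2
      _ = _ := by rw [← pow_mul]
  have h8 : (n : ℝ) ≤ uU n ^ 4 := by
    unfold uU
    exact_mod_cast h7
  calc Real.log n ≤ Real.log (uU n ^ 4) := Real.log_le_log (by exact_mod_cast hn) h8
    _ = _ := by rw [Real.log_pow]; norm_num

lemma real_tends (c : ℝ) (hc : 0 < c) (j : ℕ) : Tendsto (fun u : ℝ => c * u / Real.log u ^ j) atTop atTop := by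
  have h1 : Tendsto (fun x : ℝ => Real.log x ^ (j : ℝ) / x ^ (1 : ℝ)) atTop (𝓝 0) :=
    (isLittleO_log_rpow_rpow_atTop (j : ℝ) one_pos).tendsto_div_nhds_zero
  have h3 : Tendsto (fun x : ℝ => (Real.log x ^ (j : ℝ) / x ^ (1 : ℝ))⁻¹) atTop atTop := by
    refine Tendsto.inv_tendsto_nhdsGT_zero ?_
    rw [tendsto_nhdsWithin_iff]
    refine ⟨h1, ?_⟩
    filter_upwards [eventually_gt_atTop 1] with x hx
    have hL : 0 < Real.log x := Real.log_pos hx
    have : 0 < x := by linarith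
    exact mem_Ioi.2 (by positivity)
  refine (h3.const_mul_atTop hc).congr fun x => ?_
  rw [inv_div, Real.rpow_one, Real.rpow_natCast, mul_div_assoc']

/-- few palindromes with a small logarithm -/
lemma far_card (Q : ℕ) (δ : ℝ) {n : ℕ} (hb : 2 ≤ bB n) :
    ((far (cop (fam n) (fun t => {t}) Q) (fun t => {t}) (LL n) δ).card : ℝ) ≤
      uU n * (uU n) ^ (-δ) * (if 0 ≤ δ then 1 else 0) + 1 ∨ δ < 0 := by
  classical
  by_cases hδ : δ < 0
  · exact Or.inr hδ
  left
  push Not at hδ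
  rw [if_pos hδ, mul_one]
  have hb' : (1 : ℝ) < bB n := by exact_mod_cast hb
  have hb0 : (0 : ℝ) < bB n := by linarith
  have hl : 0 < Real.log (bB n : ℝ) := Real.log_pos hb'
  set Y : ℝ := (bB n : ℝ) ^ (((nN n : ℝ) + 1) - δ * (2 * nN n + 1)) with hY
  have hmem : ∀ t ∈ far (cop (fam n) (fun t => {t}) Q) (fun t => {t}) (LL n) δ,
      t ∈ palB (bB n) (2 * nN n + 1) ∧ t / bB n ^ nN n ∈ Finset.range (⌊Y⌋₊ + 1) := by
    intro t ht
    unfold far cop at ht
    simp only [Finset.mem_filter, Finset.mem_singleton, exists_eq_left, forall_eq] at ht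
    obtain ⟨⟨h1, -⟩, h2⟩ := ht
    have h3 := (mem_fam hb t).1 h1
    refine ⟨h3, ?_⟩
    have h4 := pal_size hb h3
    have ht0 : 0 < t := lt_of_lt_of_le (by have : 0 < bB n := by omega
                                           positivity) h4.1
    have ht1 : (0 : ℝ) < t := by exact_mod_cast ht0
    have h5 : Real.log t ≤ LL n := by
      have h6 : (t : ℝ) ≤ (bB n : ℝ) ^ (2 * nN n + 1) := by exact_mod_cast h4.2.le
      have h7 := Real.log_le_log ht1 h6
      rw [Real.log_pow] at h7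
      unfold LL
      push_cast at h7
      exact h7
    rw [abs_sub_comm, abs_of_nonneg (by linarith)] at h2
    have h6 : Real.log t < (1 - δ) * LL n := by linarith
    have h7 : (t : ℝ) < (bB n : ℝ) ^ ((1 - δ) * (2 * nN n + 1)) := by
      rw [← Real.log_lt_log_iff ht1 (Real.rpow_pos_of_pos hb0 _), Real.log_rpow hb0]
      unfold LL at h6
      linarith
    rw [Finset.mem_range, Nat.lt_add_one_iff, Nat.le_floor_iff (Real.rpow_pos_of_pos hb0 _).le]
    have h8 : ((t / bB n ^ nN n : ℕ) : ℝ) ≤ (t : ℝ) / (bB n : ℝ) ^ nN n := by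
      have := Nat.cast_div_le (α := ℝ) (m := t) (n := bB n ^ nN n)
      rwa [Nat.cast_pow] at this
    refine h8.trans ?_
    rw [div_le_iff₀ (by positivity), ← Real.rpow_natCast, ← Real.rpow_add hb0]
    refine h7.le.trans (le_of_eq ?_)
    congr 1
    ring
  have h1 : (far (cop (fam n) (fun t => {t}) Q) (fun t => {t}) (LL n) δ).card ≤ (Finset.range (⌊Y⌋₊ + 1)).card := by
    apply Finset.card_le_card_of_injOn (fun t => t / bB n ^ nN n)
    · intro t ht
      exact Finset.mem_coe.2 (hmem t (Finset.mem_coe.1 ht)).2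
    · intro t ht s hs h
      exact div_inj (bB n) (nN n) hb (hmem t (Finset.mem_coe.1 ht)).1 (hmem s (Finset.mem_coe.1 hs)).1 h
  rw [Finset.card_range] at h1
  have h2 : ((far (cop (fam n) (fun t => {t}) Q) (fun t => {t}) (LL n) δ).card : ℝ) ≤ ⌊Y⌋₊ + 1 := by exact_mod_cast h1
  have hY0 : 0 ≤ Y := (Real.rpow_pos_of_pos hb0 _).le
  have h3 : Y ≤ uU n * uU n ^ (-δ) := by
    have e1 : uU n = (bB n : ℝ) ^ ((nN n : ℝ) + 1) := by
      unfold uU
      rw [← Real.rpow_natCast]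
      congr 1
      push_cast
      ring
    rw [e1, ← Real.rpow_mul hb0.le, ← Real.rpow_add hb0, hY]
    apply Real.rpow_le_rpow_of_exponent_le hb'.le
    have : (0 : ℝ) ≤ nN n := Nat.cast_nonneg _
    nlinarith
  linarith [Nat.floor_le hY0]

variable {Ω : Type} {m0 : MeasurableSpace Ω} {μ : Measure Ω} [IsProbabilityMeasure μ]
  {ℱ : Filtration ℕ m0} {A : ℕ → Set Ω}

/-- **the law of large numbers, uniformly in the base and the number of digits** -/
theorem base_law (hA : ∀ n, MeasurableSet[ℱ n] (A n)) (Q : ℕ) (hQ : 0 < Q)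
    (hcop : ∀ n, ¬ Nat.Coprime n Q → A n = ∅)
    (hd : ∀ᵐ ω ∂μ, Tendsto (fun n : ℕ => dens μ ℱ A n ω * Real.log n)
      (atTop ⊓ 𝓟 {n : ℕ | Nat.Coprime (n + 1) Q}) (𝓝 ((Q : ℝ) / Nat.totient Q))) :
    ∀ᵐ ω ∂μ, ∀ ε : ℝ, 0 < ε → ∃ X : ℝ, ∀ b n : ℕ, 2 ≤ b → X ≤ (b : ℝ) ^ (n + 1) →
      |((palB b (2 * n + 1) ∩ {t | ω ∈ A t}).ncard : ℝ) -
        (NN Q b (2 * n + 1) : ℝ) * (((Q : ℝ) / Nat.totient Q) / ((2 * n + 1) * Real.log b))| ≤
      ε * ((NN Q b (2 * n + 1) : ℝ) * (((Q : ℝ) / Nat.totient Q) / ((2 * n + 1) * Real.log b))) := by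
  classical
  obtain ⟨κ, X, hκ, hX⟩ := NN_lower Q hQ
  have hmem : ∀ᶠ n in atTop ⊓ 𝓟 {n : ℕ | 2 ≤ bB n}, 2 ≤ bB n := by
    rw [eventually_inf_principal]
    exact Eventually.of_forall fun n hn => hn
  have hlow : ∀ᶠ n in atTop ⊓ 𝓟 {n : ℕ | 2 ≤ bB n}, κ * uU n ≤ (cop (fam n) (fun t => {t}) Q).card := by
    filter_upwards [hmem, u_tendsto.eventually_ge_atTop X] with n h1 h2
    rw [card_cop Q h1]
    exact hX _ _ h1 h2
  have hfar : ∀ δ : ℝ, 0 < δ → ∀ᶠ n : ℕ in atTop ⊓ 𝓟 {n : ℕ | 2 ≤ bB n},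
      ((far (cop (fam n) (fun t => {t}) Q) (fun t => {t}) (LL n) δ).card : ℝ) * LL n ^ 1 ≤
        δ * (cop (fam n) (fun t => {t}) Q).card := by
    intro δ hδ
    have t1 : Tendsto (fun u : ℝ => (u ^ (-δ) + u⁻¹) * (2 * Real.log u)) atTop (𝓝 0) := by
      have a1 : Tendsto (fun u : ℝ => 2 * (Real.log u / u ^ δ)) atTop (𝓝 (2 * 0)) :=
        ((isLittleO_log_rpow_atTop hδ).tendsto_div_nhds_zero).const_mul 2
      have a2 : Tendsto (fun u : ℝ => 2 * (Real.log u / u ^ (1 : ℝ))) atTop (𝓝 (2 * 0)) :=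
        ((isLittleO_log_rpow_atTop one_pos).tendsto_div_nhds_zero).const_mul 2
      have a3 := a1.add a2
      simp only [mul_zero, add_zero] at a3
      refine a3.congr' ?_
      filter_upwards [eventually_gt_atTop 0] with u hu
      rw [Real.rpow_neg hu.le, Real.rpow_one]
      field_simp
    filter_upwards [hmem, hlow, u_tendsto.eventually (t1.eventually (gt_mem_nhds (show (0:ℝ) < δ * κ by positivity))),
      u_tendsto.eventually_gt_atTop 1] with n h1 h2 h3 h4
    have h5 := (far_card Q δ h1).resolve_right (not_lt.2 hδ.le)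
    rw [if_pos hδ.le, mul_one] at h5
    have hL := L_bounds h1
    have hlu : 0 < Real.log (uU n) := Real.log_pos h4
    have hu0 : 0 < uU n := by linarith
    rw [pow_one]
    calc ((far (cop (fam n) (fun t => {t}) Q) (fun t => {t}) (LL n) δ).card : ℝ) * LL n
        ≤ (uU n * uU n ^ (-δ) + 1) * (2 * Real.log (uU n)) :=
          mul_le_mul h5 hL.2 (by linarith) (by positivity)
      _ = uU n * ((uU n ^ (-δ) + (uU n)⁻¹) * (2 * Real.log (uU n))) := by
          field_simp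
      _ ≤ uU n * (δ * κ) := mul_le_mul_of_nonneg_left h3.le hu0.le
      _ = δ * (κ * uU n) := by ring
      _ ≤ _ := mul_le_mul_of_nonneg_left h2 hδ.le
  have hE : Tendsto (fun n => ((cop (fam n) (fun t => {t}) Q).card : ℝ) /
      (((1 : ℕ) : ℝ) * Real.log n * LL n ^ 1)) (atTop ⊓ 𝓟 {n : ℕ | 2 ≤ bB n}) atTop := by
    refine tendsto_atTop_mono' _ ?_ ((real_tends (κ / 8) (by positivity) 2).comp u_tendsto)
    filter_upwards [hmem, hlow, u_tendsto.eventually_gt_atTop 1, (eventually_gt_atTop 1).filter_mono inf_le_left]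
      with n h1 h2 h3 h4
    have hL := L_bounds h1
    have hlu : 0 < Real.log (uU n) := Real.log_pos h3
    have hln : 0 < Real.log (n : ℝ) := Real.log_pos (by exact_mod_cast h4)
    have hlc := log_code h1 (by omega : 0 < n)
    have hLL : 0 < LL n := by linarith
    simp only [Function.comp_apply, Nat.cast_one, one_mul, pow_one]
    have hu0 : 0 < uU n := by linarith
    calc κ / 8 * uU n / Real.log (uU n) ^ 2 = κ * uU n / (4 * Real.log (uU n) * (2 * Real.log (uU n))) := by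
          field_simp
          norm_num
      _ ≤ κ * uU n / (Real.log n * LL n) := by
          have := hL.2
          gcongr
      _ ≤ _ := by gcongr
  have hlaw := sieved (μ := μ) hA Q hQ hcop hd 1 fam (fun _ t => {t}) (fun _ => 1)
    (fun n j _ => Finset.card_singleton j)
    (fun n j hj => by
      rw [Finset.mem_singleton]
      have h1 := fam_pal hj
      have h2 := (pal_size h1.1 h1.2).1
      have : 0 < bB n ^ (2 * nN n) := by
        have : 0 < bB n := by omega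
        positivity
      omega)
    (fun n t => by
      refine Finset.card_le_one.2 fun a ha b hb => ?_
      simp only [Finset.mem_filter, Finset.mem_singleton] at ha hb
      rw [← ha.2, ← hb.2])
    (atTop ⊓ 𝓟 {n : ℕ | 2 ≤ bB n}) inf_le_left LL L_tendsto hfar hE
  filter_upwards [hlaw] with ω hω ε hε
  have h1 := hω ε hε
  rw [eventually_inf_principal] at h1
  obtain ⟨N, hN⟩ := eventually_atTop.1 h1
  refine ⟨(N : ℝ) ^ (N + 1) + 1, fun b n hb hbn => ?_⟩
  have e1 : bB (Nat.pair b n) = b := by unfold bB; rw [Nat.unpair_pair]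
  have e2 : nN (Nat.pair b n) = n := by unfold nN; rw [Nat.unpair_pair]
  have hge : N ≤ Nat.pair b n := by
    by_contra hcon
    push Not at hcon
    have h2 : b < N := lt_of_le_of_lt (Nat.left_le_pair b n) hcon
    have h3 : n < N := lt_of_le_of_lt (Nat.right_le_pair b n) hcon
    have h4 : b ^ (n + 1) ≤ N ^ (N + 1) := by
      calc b ^ (n + 1) ≤ N ^ (n + 1) := Nat.pow_le_pow_left h2.le _
        _ ≤ N ^ (N + 1) := Nat.pow_le_pow_right (by omega) (by omega)
    have h5 : (b : ℝ) ^ (n + 1) ≤ (N : ℝ) ^ (N + 1) := by exact_mod_cast h4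
    linarith
  have h2 : 2 ≤ bB (Nat.pair b n) := by rw [e1]; exact hb
  have h3 := hN _ hge h2
  rw [card_cop Q h2, card_cho A h2, e1, e2, pow_one] at h3
  unfold LL at h3
  rw [e1, e2] at h3
  exact h3

/-! ### A fixed base -/

open Classical in
/-- the palindromes up to `x` -/
noncomputable def PX (b x : ℕ) : Finset ℕ := (Finset.Icc 1 x).filter (fun t => (Nat.digits b t).reverse = Nat.digits b t)

lemma sum_pow (b : ℕ) (hb : 2 ≤ b) : ∀ k : ℕ, ∑ j ∈ Finset.range (k + 1), b ^ ((j + 1) / 2) ≤ 4 * b ^ ((k + 1) / 2)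
  | 0 => by simp
  | 1 => by
    rw [Finset.sum_range_succ, Finset.sum_range_one]
    norm_num
    omega
  | (k + 2) => by
    have ih := sum_pow b hb k
    rw [show k + 2 + 1 = (k + 1) + 1 + 1 by ring, Finset.sum_range_succ, Finset.sum_range_succ]
    have e1 : (k + 1 + 1 + 1) / 2 = (k + 1) / 2 + 1 := by omega
    have h1 : b ^ ((k + 1 + 1) / 2) ≤ b ^ ((k + 1 + 1 + 1) / 2) := Nat.pow_le_pow_right (by omega) (by omega)
    have h2 : 2 * b ^ ((k + 1) / 2) ≤ b ^ ((k + 1 + 1 + 1) / 2) := by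
      rw [e1, pow_succ, mul_comm]
      exact Nat.mul_le_mul_left _ hb
    have e0 : b ^ ((k + 2 + 1) / 2) = b ^ ((k + 1 + 1 + 1) / 2) := rfl
    rw [e0]
    omega

/-- upper bound of the number of palindromes -/
lemma PX_le (b x : ℕ) (hb : 2 ≤ b) (hx : 0 < x) : ((PX b x).card : ℝ) ≤ 4 * b * √(x : ℝ) := by
  classical
  set k := (Nat.digits b x).length with hk
  have h1 : PX b x ⊆ (Finset.range (k + 1)).biUnion (fun j => G b j) := by
    intro t ht
    unfold PX at ht
    rw [Finset.mem_filter, Finset.mem_Icc] at ht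
    rw [Finset.mem_biUnion]
    refine ⟨(Nat.digits b t).length, ?_, ?_⟩
    · rw [Finset.mem_range, Nat.lt_add_one_iff, hk]
      exact Nat.le_digits_len_le b t x ht.1.2
    · exact Finset.mem_coe.1 (pal_sub b _ hb ⟨rfl, ht.2⟩)
  have h2 : (PX b x).card ≤ 4 * b ^ ((k + 1) / 2) := by
    refine (Finset.card_le_card h1).trans (Finset.card_biUnion_le.trans ?_)
    exact (Finset.sum_le_sum fun j _ => G_card b j).trans (sum_pow b hb k)
  have hk0 : 0 < k := by
    rw [hk, List.length_pos_iff, Nat.digits_ne_nil_iff_ne_zero]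
    omega
  have h3 : b ^ (k - 1) ≤ x := by
    exact (Nat.lt_digits_length_iff (b := b) (k := k - 1) (by omega) x).1 (by omega)
  have h4 : (b ^ ((k + 1) / 2)) ^ 2 ≤ b ^ 2 * x := by
    calc (b ^ ((k + 1) / 2)) ^ 2 = b ^ ((k + 1) / 2 * 2) := (pow_mul _ _ _).symm
      _ ≤ b ^ (2 + (k - 1)) := Nat.pow_le_pow_right (by omega) (by omega)
      _ = b ^ 2 * b ^ (k - 1) := pow_add _ _ _
      _ ≤ _ := Nat.mul_le_mul_left _ h3
  have h5 : (b : ℝ) ^ ((k + 1) / 2) ≤ b * √(x : ℝ) := by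
    apply le_of_sq_le_sq₀' _ (by positivity)
    rw [mul_pow, Real.sq_sqrt (Nat.cast_nonneg x)]
    exact_mod_cast h4
  have h6 : ((PX b x).card : ℝ) ≤ 4 * (b : ℝ) ^ ((k + 1) / 2) := by exact_mod_cast h2
  linarith
where
  le_of_sq_le_sq₀' {a b : ℝ} (h : a ^ 2 ≤ b ^ 2) (hb : 0 ≤ b) : a ≤ b := by
    by_contra hcon
    push Not at hcon
    nlinarith

/-- lower bound of the number of palindromes coprime to `Q` -/
lemma cop_ge (Q b : ℕ) (hQ : 0 < Q) (hb : 2 ≤ b) :
    ∃ c : ℝ, 0 < c ∧ ∀ᶠ x : ℕ in atTop, c * √(x : ℝ) ≤ (cop (PX b x) (fun t => {t}) Q).card := by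
  classical
  obtain ⟨κ, X, hκ, hX⟩ := NN_lower Q hQ
  have hb0 : (0 : ℝ) < b := by
    have : 0 < b := by omega
    exact_mod_cast this
  refine ⟨κ / √(b : ℝ), by positivity, ?_⟩
  have hlim : Tendsto (fun x : ℕ => √((x : ℝ) / b)) atTop atTop :=
    Real.tendsto_sqrt_atTop.comp (tendsto_natCast_atTop_atTop.atTop_div_const hb0)
  filter_upwards [hlim.eventually_ge_atTop X, eventually_ge_atTop b] with x h1 h2
  set k := (Nat.digits b x).length with hk
  have hx0 : x ≠ 0 := by omega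
  have hlt : x < b ^ k := Nat.lt_base_pow_length_digits (by omega)
  have hk2 : 2 ≤ k := by
    by_contra hcon
    push Not at hcon
    have : b ^ k ≤ b ^ 1 := Nat.pow_le_pow_right (by omega) (by omega)
    rw [pow_one] at this
    omega
  have hle : b ^ (k - 1) ≤ x := by
    exact (Nat.lt_digits_length_iff (b := b) (k := k - 1) (by omega) x).1 (by omega)
  set n := (k - 2) / 2 with hn
  have h3 : √((x : ℝ) / b) ≤ (b : ℝ) ^ (n + 1) := by
    rw [Real.sqrt_le_left (by positivity), div_le_iff₀ hb0]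
    have h4 : b ^ k ≤ (b ^ (n + 1)) ^ 2 * b := by
      rw [← pow_mul, ← pow_succ]
      exact Nat.pow_le_pow_right (by omega) (by omega)
    have h5 : x ≤ (b ^ (n + 1)) ^ 2 * b := hlt.le.trans h4
    exact_mod_cast h5
  have h4 := hX b n hb (h1.trans h3)
  have h5 : NN Q b (2 * n + 1) ≤ (cop (PX b x) (fun t => {t}) Q).card := by
    unfold NN
    rw [← Set.ncard_coe_finset]
    apply Set.ncard_le_ncard _ (Finset.finite_toSet _)
    rintro t ⟨ht, hc⟩
    have h6 := pal_size hb ht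
    rw [Finset.mem_coe]
    unfold cop PX
    simp only [Finset.mem_filter, Finset.mem_singleton, forall_eq, Finset.mem_Icc]
    refine ⟨⟨⟨?_, ?_⟩, ht.2⟩, hc⟩
    · refine lt_of_lt_of_le ?_ h6.1
      have : 0 < b := by omega
      positivity
    · have h7 : b ^ (2 * n + 1) ≤ b ^ (k - 1) := Nat.pow_le_pow_right (by omega) (by omega)
      omega
  have h6 : (NN Q b (2 * n + 1) : ℝ) ≤ (cop (PX b x) (fun t => {t}) Q).card := by exact_mod_cast h5
  calc κ / √(b : ℝ) * √(x : ℝ) = κ * √((x : ℝ) / b) := by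
        rw [Real.sqrt_div (Nat.cast_nonneg x)]
        ring
    _ ≤ κ * (b : ℝ) ^ (n + 1) := mul_le_mul_of_nonneg_left h3 hκ.le
    _ ≤ _ := h4.trans h6

/-- few palindromes with a small logarithm -/
lemma far_PX (b : ℕ) (hb : 2 ≤ b) (δ : ℝ) (hδ : 0 < δ) : ∃ η : ℝ, 0 < η ∧ ∀ᶠ x : ℕ in atTop,
    ((far (PX b x) (fun t => {t}) (1 * Real.log x) δ).card : ℝ) ≤ (x : ℝ) ^ (1 / 2 - η : ℝ) := by
  classical
  set e : ℝ := min δ (1 / 2) with he
  have he0 : 0 < e := by rw [he]; positivity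
  have heδ : e ≤ δ := min_le_left _ _
  refine ⟨e / 4, by positivity, ?_⟩
  have hbig : ∀ᶠ x : ℕ in atTop, (8 * b : ℝ) ≤ (x : ℝ) ^ (e / 4) :=
    ((tendsto_rpow_atTop (by positivity)).comp tendsto_natCast_atTop_atTop).eventually_ge_atTop _
  filter_upwards [hbig, eventually_gt_atTop 1] with x h1 h2
  have hx : (1 : ℝ) < x := by exact_mod_cast h2
  have hx0 : (0 : ℝ) < x := by linarith
  have hl : 0 < Real.log x := Real.log_pos hx
  set Y : ℝ := (x : ℝ) ^ (1 - e) with hY
  have hY1 : 1 ≤ Y := Real.one_le_rpow hx.le (by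
    have : e ≤ 1 / 2 := min_le_right _ _
    linarith)
  have h3 : far (PX b x) (fun t => {t}) (1 * Real.log x) δ ⊆ PX b ⌊Y⌋₊ := by
    intro t ht
    unfold far PX at ht
    simp only [Finset.mem_filter, Finset.mem_singleton, exists_eq_left, Finset.mem_Icc] at ht
    obtain ⟨⟨⟨t1, t2⟩, t3⟩, t4⟩ := ht
    unfold PX
    simp only [Finset.mem_filter, Finset.mem_Icc]
    refine ⟨⟨t1, ?_⟩, t3⟩
    have ht1 : (0 : ℝ) < t := by
      have : 0 < t := t1
      exact_mod_cast this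
    have h5 : Real.log t ≤ Real.log x := Real.log_le_log ht1 (by exact_mod_cast t2)
    rw [one_mul, abs_sub_comm, abs_of_nonneg (by linarith)] at t4
    have h6 : Real.log t < (1 - e) * Real.log x := by nlinarith
    apply Nat.le_floor
    rw [← Real.log_rpow hx0, Real.log_lt_log_iff ht1 (Real.rpow_pos_of_pos hx0 _)] at h6
    exact h6.le
  have h4 : ((far (PX b x) (fun t => {t}) (1 * Real.log x) δ).card : ℝ) ≤ ((PX b ⌊Y⌋₊).card : ℝ) := by
    exact_mod_cast Finset.card_le_card h3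
  have h5 := PX_le b ⌊Y⌋₊ hb (Nat.floor_pos.2 hY1)
  have h6 : √((⌊Y⌋₊ : ℕ) : ℝ) ≤ (x : ℝ) ^ ((1 - e) / 2) := by
    calc √((⌊Y⌋₊ : ℕ) : ℝ) ≤ √Y := Real.sqrt_le_sqrt (Nat.floor_le (by linarith))
      _ = (x : ℝ) ^ ((1 - e) / 2) := by
        rw [hY, Real.sqrt_eq_rpow, ← Real.rpow_mul hx0.le]
        congr 1
        ring
  have hb0 : (0 : ℝ) < b := by
    have : 0 < b := by omega
    exact_mod_cast this
  calc _ ≤ 4 * b * √((⌊Y⌋₊ : ℕ) : ℝ) := h4.trans h5
    _ ≤ (x : ℝ) ^ (e / 4) * (x : ℝ) ^ ((1 - e) / 2) :=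
        mul_le_mul (by linarith) h6 (Real.sqrt_nonneg _) (Real.rpow_pos_of_pos hx0 _).le
    _ = (x : ℝ) ^ (e / 4 + (1 - e) / 2) := (Real.rpow_add hx0 _ _).symm
    _ = _ := by
      congr 1
      ring

/-- **the law of large numbers for all palindromes up to `x`** -/
theorem fixed_law (hA : ∀ n, MeasurableSet[ℱ n] (A n)) (Q : ℕ) (hQ : 0 < Q)
    (hcop : ∀ n, ¬ Nat.Coprime n Q → A n = ∅)
    (hd : ∀ᵐ ω ∂μ, Tendsto (fun n : ℕ => dens μ ℱ A n ω * Real.log n)
      (atTop ⊓ 𝓟 {n : ℕ | Nat.Coprime (n + 1) Q}) (𝓝 ((Q : ℝ) / Nat.totient Q))) (b : ℕ) (hb : 2 ≤ b) :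
    ∀ᵐ ω ∂μ, ∀ ε : ℝ, 0 < ε → ∀ᶠ x : ℕ in atTop,
      |((cho A (PX b x) (fun t => {t}) ω).card : ℝ) -
        ((cop (PX b x) (fun t => {t}) Q).card : ℝ) * (((Q : ℝ) / Nat.totient Q) / Real.log x)| ≤
      ε * (((cop (PX b x) (fun t => {t}) Q).card : ℝ) * (((Q : ℝ) / Nat.totient Q) / Real.log x)) := by
  classical
  obtain ⟨c, hc, hcx⟩ := cop_ge Q b hQ hb
  have h := law (μ := μ) hA Q hQ hcop hd 1 (PX b) (fun _ t => {t}) (fun _ => 1)
    (fun n j _ => Finset.card_singleton j)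
    (fun n j hj => by
      rw [Finset.mem_singleton]
      unfold PX at hj
      rw [Finset.mem_filter, Finset.mem_Icc] at hj
      omega)
    (fun n t => by
      refine Finset.card_le_one.2 fun a ha b hb => ?_
      simp only [Finset.mem_filter, Finset.mem_singleton] at ha hb
      rw [← ha.2, ← hb.2])
    (fun _ => le_rfl) atTop le_rfl 1 (1 / 2) c one_pos hc
    (by
      filter_upwards [hcx] with x hx
      rwa [← Real.sqrt_eq_rpow])
    ⟨1 / 4, by norm_num, by
      filter_upwards [eventually_ge_atTop 1] with n hn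
      have : (1 : ℝ) ≤ n := by exact_mod_cast hn
      rw [Nat.cast_one]
      exact Real.one_le_rpow this (by norm_num)⟩ (far_PX b hb)
  filter_upwards [h] with ω hω ε hε
  filter_upwards [hω ε hε] with x hx
  simpa only [one_mul, pow_one] using hx

end Pool.Agent.N256.PB
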