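import Mathlib

set_option autoImplicit false

/-! # A mixing lemma for sums of digits with periodic coefficients modulo an odd integer -/

open Filter
open scoped Topology

namespace Pool.Agent.N256.PL

variable {m : ℕ}

/-- one step: summation over a digit with coefficient `d` -/
def stp (d : ZMod m) (h : ZMod m → ℝ) (v : ZMod m) : ℝ := ∑ b ∈ Finset.range 10, h (v + (b : ZMod m) * d)

/-- the steps with the coefficients `d 1, d 2, ...` -/
def ev (d : ℕ → ZMod m) (f : ZMod m → ℝ) : ℕ → ZMod m → ℝ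
  | 0 => f
  | (j + 1) => stp (d (j + 1)) (ev d f j)

lemma stp_nonneg (d : ZMod m) (h : ZMod m → ℝ) (hh : ∀ v, 0 ≤ h v) (v : ZMod m) : 0 ≤ stp d h v :=
  Finset.sum_nonneg fun _ _ => hh _

lemma stp_ge (d : ZMod m) (h : ZMod m → ℝ) (hh : ∀ v, 0 ≤ h v) (v : ZMod m) (b : ℕ) (hb : b < 10) :
    h (v + (b : ZMod m) * d) ≤ stp d h v :=
  Finset.single_le_sum (f := fun b : ℕ => h (v + (b : ZMod m) * d)) (fun _ _ => hh _) (Finset.mem_range.2 hb)

lemma ev_nonneg (d : ℕ → ZMod m) (f : ZMod m → ℝ) (hf : ∀ v, 0 ≤ f v) (n : ℕ) : ∀ v, 0 ≤ ev d f n v := by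
  induction n with
  | zero => exact hf
  | succ n ih => exact stp_nonneg _ _ ih

lemma ev_mono_step (d : ℕ → ZMod m) (f : ZMod m → ℝ) (hf : ∀ v, 0 ≤ f v) (j n : ℕ) (v : ZMod m) :
    ev d f j v ≤ ev d f (j + n) v := by
  induction n with
  | zero => exact le_rfl
  | succ n ih =>
    refine ih.trans ?_
    have := stp_ge (d (j + n + 1)) (ev d f (j + n)) (ev_nonneg d f hf _) v 0 (by norm_num)
    simp only [Nat.cast_zero, zero_mul, add_zero] at this
    exact this

lemma ev_sub (d : ℕ → ZMod m) (f : ZMod m → ℝ) (c : ℝ) (n : ℕ) :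
    ∀ v, ev d (fun v => f v - c) n v = ev d f n v - 10 ^ n * c := by
  induction n with
  | zero => intro v; simp [ev]
  | succ n ih =>
    intro v
    show stp _ _ _ = stp _ _ _ - _
    unfold stp
    simp only [ih, Finset.sum_sub_distrib, Finset.sum_const, Finset.card_range, nsmul_eq_mul]
    push_cast
    ring

lemma ev_le (d : ℕ → ZMod m) (f : ZMod m → ℝ) (c : ℝ) (hf : ∀ v, f v ≤ c) (n : ℕ) :
    ∀ v, ev d f n v ≤ 10 ^ n * c := by
  induction n with
  | zero => intro v; simpa [ev] using hf v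
  | succ n ih =>
    intro v
    show stp _ _ _ ≤ _
    unfold stp
    calc _ ≤ ∑ b ∈ Finset.range 10, 10 ^ n * c := Finset.sum_le_sum fun _ _ => ih _
      _ = _ := by
        rw [Finset.sum_const, Finset.card_range, nsmul_eq_mul]
        push_cast
        ring

lemma ev_ge (d : ℕ → ZMod m) (f : ZMod m → ℝ) (c : ℝ) (hf : ∀ v, c ≤ f v) (n : ℕ) :
    ∀ v, 10 ^ n * c ≤ ev d f n v := by
  intro v
  have h1 := ev_nonneg d (fun v => f v - c) (fun v => sub_nonneg.2 (hf v)) n v
  rw [ev_sub] at h1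
  linarith

/-- periodic coefficients -/
lemma ev_add (d : ℕ → ZMod m) (K : ℕ) (hd : ∀ j, d (K + j) = d j) (f : ZMod m → ℝ) (i n : ℕ) :
    ev d f (K * i + n) = ev d (ev d f (K * i)) n := by
  have hd' : ∀ i j, d (K * i + j) = d j := by
    intro i j
    induction i with
    | zero => simp
    | succ i ih => rw [show K * (i + 1) + j = K + (K * i + j) by ring, hd, ih]
  induction n with
  | zero => rfl
  | succ n ih =>
    show stp (d (K * i + n + 1)) (ev d f (K * i + n)) = stp (d (n + 1)) (ev d (ev d f (K * i)) n)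
    rw [ih, show K * i + n + 1 = K * i + (n + 1) by ring, hd']

/-- lower bound along multiples of the period -/
lemma ev_reach (d : ℕ → ZMod m) (K : ℕ) (hK : 0 < K) (h2 : ∀ i, d (K * (i + 1)) = 2) (g : ZMod m → ℝ)
    (hg : ∀ v, 0 ≤ g v) (w : ZMod m) (i : ℕ) : ∀ t : ℕ, t ≤ i → g w ≤ ev d g (K * i) (w - 2 * t) := by
  obtain ⟨K', rfl⟩ : ∃ K', K = K' + 1 := ⟨K - 1, by omega⟩
  induction i with
  | zero =>
    intro t ht
    have : t = 0 := by omega
    subst this
    simp [ev]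
  | succ i ih =>
    intro t ht
    rcases Nat.lt_or_ge i t with h | h
    · have e : t = i + 1 := by omega
      subst e
      have h1 := ih i le_rfl
      have h3 := ev_mono_step d g hg ((K' + 1) * i) K' (w - 2 * i)
      have h4 := stp_ge (d ((K' + 1) * (i + 1))) (ev d g ((K' + 1) * i + K')) (ev_nonneg d g hg _)
        (w - 2 * ((i + 1 : ℕ) : ZMod m)) 1 (by norm_num)
      rw [h2 i] at h4
      have e1 : w - 2 * ((i + 1 : ℕ) : ZMod m) + ((1 : ℕ) : ZMod m) * 2 = w - 2 * i := by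
        push_cast
        ring
      rw [e1] at h4
      have e2 : (K' + 1) * (i + 1) = (K' + 1) * i + K' + 1 := by ring
      have e3 : ev d g ((K' + 1) * (i + 1)) = stp 2 (ev d g ((K' + 1) * i + K')) := by
        rw [e2]
        show stp (d ((K' + 1) * i + K' + 1)) _ = _
        rw [← e2, h2 i]
      rw [e3]
      linarith
    · have h1 := ih t h
      have h3 := ev_mono_step d g hg ((K' + 1) * i) (K' + 1) (w - 2 * t)
      rw [show (K' + 1) * (i + 1) = (K' + 1) * i + (K' + 1) by ring]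
      linarith

/-- contraction over a block of `K * m` steps -/
lemma ev_contract [NeZero m] (hm : Nat.Coprime 2 m) (d : ℕ → ZMod m) (K : ℕ) (hK : 0 < K) (h2 : ∀ i, d (K * (i + 1)) = 2)
    (f : ZMod m → ℝ) (δ : ℝ) (hf : ∀ v v', f v - f v' ≤ δ) (v v' : ZMod m) :
    ev d f (K * m) v - ev d f (K * m) v' ≤ (10 ^ (K * m) - 1) * δ := by
  obtain ⟨w, -, hw⟩ := Finset.exists_max_image Finset.univ f ⟨0, Finset.mem_univ _⟩
  obtain ⟨u, -, hu⟩ := Finset.exists_min_image Finset.univ f ⟨0, Finset.mem_univ _⟩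
  have h1 : ev d f (K * m) v ≤ 10 ^ (K * m) * f w := ev_le d f (f w) (fun x => hw x (Finset.mem_univ _)) _ v
  have hunit : IsUnit (2 : ZMod m) := by
    have := (ZMod.isUnit_iff_coprime 2 m).2 hm
    exact_mod_cast this
  obtain ⟨s, hs⟩ := hunit.exists_right_inv
  have h3 := ev_reach d K hK h2 (fun x => f x - f u) (fun x => sub_nonneg.2 (hu x (Finset.mem_univ _))) w m
    ((s * (w - v')).val) (ZMod.val_lt _).le
  have e1 : w - 2 * (((s * (w - v')).val : ℕ) : ZMod m) = v' := by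
    rw [ZMod.natCast_val, ZMod.cast_id', id, ← mul_assoc, hs, one_mul]
    ring
  rw [e1, ev_sub] at h3
  have h4 : f w - f u ≤ δ := hf w u
  have h5 : 1 ≤ (10 : ℝ) ^ (K * m) := one_le_pow₀ (by norm_num)
  have h6 : (10 ^ (K * m) - 1) * (f w - f u) ≤ (10 ^ (K * m) - 1) * δ := mul_le_mul_of_nonneg_left h4 (by linarith)
  linarith

lemma ev_iter [NeZero m] (hm : Nat.Coprime 2 m) (d : ℕ → ZMod m) (K : ℕ) (hK : 0 < K) (hd : ∀ j, d (K + j) = d j)
    (h2 : ∀ i, d (K * (i + 1)) = 2) (f : ZMod m → ℝ) (δ : ℝ) (hf : ∀ v v', f v - f v' ≤ δ) (i : ℕ) :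
    ∀ v v' : ZMod m, ev d f (K * m * i) v - ev d f (K * m * i) v' ≤ (10 ^ (K * m) - 1) ^ i * δ := by
  induction i with
  | zero => intro v v'; simpa [ev] using hf v v'
  | succ i ih =>
    intro v v'
    have e1 : ev d f (K * m * (i + 1)) = ev d (ev d f (K * m * i)) (K * m) := by
      rw [show K * m * (i + 1) = K * (m * i) + K * m by ring, ev_add d K hd f (m * i) (K * m),
        show K * (m * i) = K * m * i by ring]
    rw [e1]
    refine (ev_contract hm d K hK h2 _ _ ih v v').trans (le_of_eq ?_)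
    rw [pow_succ]
    ring

lemma ev_diff (d : ℕ → ZMod m) (f : ZMod m → ℝ) (δ : ℝ) (hf : ∀ v v', f v - f v' ≤ δ) (n : ℕ) :
    ∀ v v' : ZMod m, ev d f n v - ev d f n v' ≤ 10 ^ n * δ := by
  induction n with
  | zero => intro v v'; simpa [ev] using hf v v'
  | succ n ih =>
    intro v v'
    show stp _ _ _ - stp _ _ _ ≤ _
    unfold stp
    rw [← Finset.sum_sub_distrib]
    calc _ ≤ ∑ b ∈ Finset.range 10, 10 ^ n * δ := Finset.sum_le_sum fun _ _ => ih _ _
      _ = _ := by
        rw [Finset.sum_const, Finset.card_range, nsmul_eq_mul]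
        push_cast
        ring

lemma ev_sum [NeZero m] (d : ℕ → ZMod m) (f : ZMod m → ℝ) (n : ℕ) :
    ∑ v, ev d f n v = 10 ^ n * ∑ v, f v := by
  induction n with
  | zero => simp [ev]
  | succ n ih =>
    show ∑ v, stp _ _ v = _
    unfold stp
    rw [Finset.sum_comm]
    have h1 : ∀ b ∈ Finset.range 10, ∑ v, ev d f n (v + (b : ZMod m) * d (n + 1)) = ∑ v, ev d f n v := by
      intro b _
      exact Fintype.sum_equiv (Equiv.addRight ((b : ZMod m) * d (n + 1))) _ _ (fun v => rfl)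
    rw [Finset.sum_congr rfl h1, Finset.sum_const, Finset.card_range, nsmul_eq_mul, ih]
    push_cast
    ring

/-- **mixing** -/
theorem mix [NeZero m] (hm : Nat.Coprime 2 m) (d : ℕ → ZMod m) (K : ℕ) (hK : 0 < K) (hd : ∀ j, d (K + j) = d j)
    (h2 : ∀ i, d (K * (i + 1)) = 2) (f : ZMod m → ℝ) (ε : ℝ) (hε : 0 < ε) :
    ∀ᶠ n : ℕ in atTop, ∀ v : ZMod m, |ev d f n v / 10 ^ n - (∑ v, f v) / m| ≤ ε := by
  have hmpos : 0 < m := Nat.pos_of_ne_zero (NeZero.ne m)
  obtain ⟨w, -, hw⟩ := Finset.exists_max_image Finset.univ f ⟨0, Finset.mem_univ _⟩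
  obtain ⟨u, -, hu⟩ := Finset.exists_min_image Finset.univ f ⟨0, Finset.mem_univ _⟩
  set δ : ℝ := f w - f u with hδ
  have hf : ∀ v v', f v - f v' ≤ δ := fun v v' => sub_le_sub (hw v (Finset.mem_univ _)) (hu v' (Finset.mem_univ _))
  have hδ0 : 0 ≤ δ := by simpa using hf 0 0
  set L := K * m with hL
  have hLpos : 0 < L := Nat.mul_pos hK hmpos
  set ρ : ℝ := 1 - 1 / 10 ^ L with hρ
  have h10 : (1 : ℝ) ≤ 10 ^ L := one_le_pow₀ (by norm_num)
  have hρ0 : 0 ≤ ρ := by
    rw [hρ, sub_nonneg, div_le_one (by positivity)]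
    exact h10
  have hρ1 : ρ < 1 := by
    rw [hρ]
    have : (0 : ℝ) < 1 / 10 ^ L := by positivity
    linarith
  have hlim : Tendsto (fun n : ℕ => ρ ^ (n / L) * δ) atTop (𝓝 0) := by
    have h1 := (tendsto_pow_atTop_nhds_zero_of_lt_one hρ0 hρ1).comp (Nat.tendsto_div_const_atTop hLpos.ne')
    have h3 := h1.mul_const δ
    rw [zero_mul] at h3
    exact h3
  filter_upwards [hlim.eventually (ge_mem_nhds hε)] with n hn v
  have key : ∀ v v' : ZMod m, ev d f n v - ev d f n v' ≤ 10 ^ n * (ρ ^ (n / L) * δ) := by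
    intro v v'
    have e1 : n = K * (m * (n / L)) + n % L := by
      rw [show K * (m * (n / L)) = L * (n / L) by rw [hL]; ring]
      exact (Nat.div_add_mod n L).symm
    have e2 : ev d f n = ev d (ev d f (K * m * (n / L))) (n % L) := by
      conv_lhs => rw [e1, ev_add d K hd f (m * (n / L)) (n % L), show K * (m * (n / L)) = K * m * (n / L) by ring]
    rw [e2]
    refine (ev_diff d _ _ (ev_iter hm d K hK hd h2 f δ hf (n / L)) (n % L) v v').trans (le_of_eq ?_)
    have e3 : (10 : ℝ) ^ (K * m) - 1 = 10 ^ L * ρ := by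
      rw [hρ, hL]
      field_simp
    rw [e3, mul_pow, ← pow_mul]
    have e4 : (10 : ℝ) ^ n = 10 ^ (L * (n / L)) * 10 ^ (n % L) := by
      rw [← pow_add, Nat.div_add_mod]
    rw [e4]
    ring
  have hsum := ev_sum d f n
  have hmr : (0 : ℝ) < m := by exact_mod_cast hmpos
  have h10n : (0 : ℝ) < 10 ^ n := by positivity
  have hcard : ∀ c : ℝ, ∑ _v : ZMod m, c = m * c := by
    intro c
    rw [Finset.sum_const, Finset.card_univ, ZMod.card, nsmul_eq_mul]
  set B : ℝ := 10 ^ n * (ρ ^ (n / L) * δ) with hB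
  have g1 : (m : ℝ) * ev d f n v - 10 ^ n * ∑ v, f v ≤ m * B := by
    rw [← hsum, ← hcard, ← hcard, ← Finset.sum_sub_distrib]
    exact Finset.sum_le_sum fun x _ => key v x
  have g2 : 10 ^ n * ∑ v, f v - (m : ℝ) * ev d f n v ≤ m * B := by
    rw [← hsum, ← hcard, ← hcard, ← Finset.sum_sub_distrib]
    exact Finset.sum_le_sum fun x _ => key x v
  have e5 : ev d f n v / 10 ^ n - (∑ v, f v) / m = (m * ev d f n v - 10 ^ n * ∑ v, f v) / (m * 10 ^ n) := by
    field_simp
  rw [e5, abs_div, abs_of_pos (show (0:ℝ) < m * 10 ^ n by positivity), div_le_iff₀ (by positivity)]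
  have e6 : m * B ≤ ε * (m * 10 ^ n) := by
    rw [hB]
    have : 10 ^ n * (ρ ^ (n / L) * δ) ≤ 10 ^ n * ε := mul_le_mul_of_nonneg_left hn h10n.le
    nlinarith
  rw [abs_le]
  constructor <;> linarith

end Pool.Agent.N256.PL
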