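import Mathlib
import Pool.Agent.N256.PL.Mix
import Pool.Agent.N909.TF.Tools

set_option autoImplicit false

/-! # Decimal palindromes with an odd number of digits modulo a fixed integer -/

open Filter
open scoped Topology

namespace Pool.Agent.N256.PL

open Pool.Agent.N909.TF

/-- the palindromes with exactly `2 n + 1` decimal digits -/
def pal (n : ℕ) : Set ℕ := {t | (Nat.digits 10 t).length = 2 * n + 1 ∧ (Nat.digits 10 t).reverse = Nat.digits 10 t}

/-- palindromic strings of `2 n + 1` digits (leading zeros allowed) -/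
def G : ℕ → Finset ℕ
  | 0 => Finset.range 10
  | (n + 1) => (Finset.range 10 ×ˢ G n).image (fun x => 10 * (x.1 * 10 ^ (2 * n + 1) + x.2) + x.1)

lemma step_inj (n : ℕ) : Set.InjOn (fun x : ℕ × ℕ => 10 * (x.1 * 10 ^ (2 * n + 1) + x.2) + x.1)
    {x | x.1 < 10} := by
  rintro ⟨b, p⟩ hx ⟨c, q⟩ hy h
  simp only [Set.mem_ofPred_eq] at hx hy h
  have h1 : b = c := by omega
  subst h1
  have h2 : p = q := by omega
  rw [h2]

lemma G_spec (n : ℕ) : ∀ p : ℕ, p ∈ G n ↔ ∃ l : List ℕ, l.length = 2 * n + 1 ∧ l.reverse = l ∧ (∀ x ∈ l, x < 10) ∧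
    Nat.ofDigits 10 l = p := by
  induction n with
  | zero =>
    intro p
    unfold G
    rw [Finset.mem_range]
    constructor
    · intro hp
      exact ⟨[p], rfl, rfl, by simpa using hp, by simp⟩
    · rintro ⟨l, h1, -, h3, h4⟩
      obtain ⟨a, rfl⟩ := List.length_eq_one_iff.1 h1
      simp only [List.mem_singleton, forall_eq, Nat.ofDigits_singleton] at h3 h4
      omega
  | succ n ih =>
    intro p
    unfold G
    rw [Finset.mem_image]
    constructor
    · rintro ⟨⟨b, q⟩, hx, rfl⟩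
      rw [Finset.mem_product, Finset.mem_range] at hx
      obtain ⟨l, h1, h2, h3, h4⟩ := (ih q).1 hx.2
      refine ⟨b :: (l ++ [b]), ?_, ?_, ?_, ?_⟩
      · simp only [List.length_cons, List.length_append, h1, List.length_nil]
        ring
      · simp [h2]
      · intro x hx'
        simp only [List.mem_cons, List.mem_append, List.not_mem_nil, or_false] at hx'
        rcases hx' with h | h | h
        · rw [h]; exact hx.1
        · exact h3 x h
        · rw [h]; exact hx.1
      · rw [Nat.ofDigits_cons, Nat.ofDigits_append, Nat.ofDigits_singleton, h1, h4]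
        simp only
        push_cast
        ring
    · rintro ⟨l, h1, h2, h3, h4⟩
      have hP := List.Palindrome.of_reverse_eq h2
      cases hP with
      | nil => simp at h1
      | singleton x => simp at h1
      | @cons_concat x l' hl' =>
        refine ⟨(x, Nat.ofDigits 10 l'), ?_, ?_⟩
        · rw [Finset.mem_product, Finset.mem_range]
          have hlen : l'.length = 2 * n + 1 := by
            simp only [List.length_cons, List.length_append, List.length_nil] at h1
            omega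
          exact ⟨h3 x (by simp), (ih _).2 ⟨l', hlen, hl'.reverse_eq, fun y hy => h3 y (by simp [hy]), rfl⟩⟩
        · have hlen : l'.length = 2 * n + 1 := by
            simp only [List.length_cons, List.length_append, List.length_nil] at h1
            omega
          rw [← h4, Nat.ofDigits_cons, Nat.ofDigits_append, Nat.ofDigits_singleton, hlen]
          simp only
          push_cast
          ring

/-- the palindromes with `2 n + 3` digits -/
def PF (n : ℕ) : Finset ℕ := (Finset.Icc 1 9 ×ˢ G n).image (fun x => 10 * (x.1 * 10 ^ (2 * n + 1) + x.2) + x.1)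

lemma pal_succ (n : ℕ) : pal (n + 1) = (PF n : Set ℕ) := by
  ext t
  rw [Finset.mem_coe]
  unfold pal PF
  rw [Set.mem_ofPred_eq, Finset.mem_image]
  constructor
  · rintro ⟨h1, h2⟩
    have ht : t ≠ 0 := by
      rintro rfl
      simp at h1
    have h3 : ∀ x ∈ Nat.digits 10 t, x < 10 := fun x hx => Nat.digits_lt_base (by norm_num) hx
    have h4 : Nat.ofDigits 10 (Nat.digits 10 t) = t := Nat.ofDigits_digits 10 t
    have h5 : ∀ h : Nat.digits 10 t ≠ [], (Nat.digits 10 t).getLast h ≠ 0 := fun h => Nat.getLast_digit_ne_zero 10 ht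
    have hP := List.Palindrome.of_reverse_eq h2
    generalize hl : Nat.digits 10 t = l at h1 h2 h3 h4 h5 hP
    cases hP with
    | nil => simp at h1
    | singleton x => simp at h1
    | @cons_concat x l' hl' =>
      have hlen : l'.length = 2 * n + 1 := by
        simp only [List.length_cons, List.length_append, List.length_nil] at h1
        omega
      refine ⟨(x, Nat.ofDigits 10 l'), ?_, ?_⟩
      · rw [Finset.mem_product, Finset.mem_Icc]
        have hx : x < 10 := h3 x (by simp)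
        have hx0 : x ≠ 0 := by
          have h6 := h5 (by simp)
          have h7 : (x :: (l' ++ [x])).getLast (by simp) = x := by simp [List.getLast_cons]
          rwa [h7] at h6
        exact ⟨⟨by omega, by omega⟩, (G_spec n _).2 ⟨l', hlen, hl'.reverse_eq, fun y hy => h3 y (by simp [hy]), rfl⟩⟩
      · rw [← h4, Nat.ofDigits_cons, Nat.ofDigits_append, Nat.ofDigits_singleton, hlen]
        simp only
        push_cast
        ring
  · rintro ⟨⟨b, q⟩, hx, rfl⟩
    rw [Finset.mem_product, Finset.mem_Icc] at hx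
    obtain ⟨l, h1, h2, h3, h4⟩ := (G_spec n q).1 hx.2
    have e1 : 10 * (b * 10 ^ (2 * n + 1) + q) + b = Nat.ofDigits 10 (b :: (l ++ [b])) := by
      rw [Nat.ofDigits_cons, Nat.ofDigits_append, Nat.ofDigits_singleton, h1, h4]
      push_cast
      ring
    have hb : b ≤ 9 ∧ 1 ≤ b := ⟨hx.1.2, hx.1.1⟩
    have e2 : Nat.digits 10 (10 * (b * 10 ^ (2 * n + 1) + q) + b) = b :: (l ++ [b]) := by
      rw [e1]
      apply Nat.digits_ofDigits 10 (by norm_num)
      · intro x hx'
        simp only [List.mem_cons, List.mem_append, List.not_mem_nil, or_false] at hx'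
        rcases hx' with h | h | h
        · omega
        · exact h3 x h
        · omega
      · intro h
        have h7 : (b :: (l ++ [b])).getLast h = b := by simp [List.getLast_cons]
        rw [h7]
        omega
    simp only [e2]
    refine ⟨?_, ?_⟩
    · simp only [List.length_cons, List.length_append, h1, List.length_nil]
      ring
    · simp [h2]

/-- size of the palindromes -/
lemma pal_size {n t : ℕ} (ht : t ∈ pal n) : 10 ^ (2 * n) ≤ t ∧ t < 10 ^ (2 * n + 1) := by
  unfold pal at ht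
  obtain ⟨h1, -⟩ := ht
  constructor
  · have := (Nat.lt_digits_length_iff (b := 10) (k := 2 * n) (by norm_num) t).1 (by omega)
    exact this
  · have := Nat.lt_base_pow_length_digits (b := 10) (m := t) (by norm_num)
    rwa [h1] at this

/-- the part of the primes dividing `Q` which do not divide ten -/
def S' (Q : ℕ) : Finset ℕ := (Q.primeFactors.erase 2).erase 5

/-- the modulus prime to ten -/
def mm (Q : ℕ) : ℕ := ∏ p ∈ S' Q, p

lemma S'_prime {Q p : ℕ} (hp : p ∈ S' Q) : p.Prime :=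
  Nat.prime_of_mem_primeFactors (Finset.mem_of_mem_erase (Finset.mem_of_mem_erase hp))

lemma mm_pos (Q : ℕ) : 0 < mm Q := Finset.prod_pos fun _ hp => (S'_prime hp).pos

lemma mm_ten (Q : ℕ) : Nat.Coprime 10 (mm Q) := by
  unfold mm
  refine Nat.Coprime.prod_right fun p hp => ?_
  have hpp := S'_prime hp
  unfold S' at hp
  rw [Finset.mem_erase, Finset.mem_erase] at hp
  rw [Nat.coprime_comm, Nat.Prime.coprime_iff_not_dvd hpp]
  intro h
  have h1 : p ∣ 2 * 5 := h
  rcases (Nat.Prime.dvd_mul hpp).1 h1 with h2 | h2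
  · exact hp.2.1 ((Nat.prime_dvd_prime_iff_eq hpp Nat.prime_two).1 h2)
  · exact hp.1 ((Nat.prime_dvd_prime_iff_eq hpp Nat.prime_five).1 h2)

/-- the condition on the last digit -/
def okd (Q b : ℕ) : Prop := (2 ∣ Q → ¬ 2 ∣ b) ∧ (5 ∣ Q → ¬ 5 ∣ b)

lemma coprime_split (Q t : ℕ) (hQ : 0 < Q) : Nat.Coprime t Q ↔ okd Q t ∧ Nat.Coprime t (mm Q) := by
  constructor
  · intro h
    rw [coprime_iff_primes] at h
    refine ⟨⟨fun h2 => h 2 Nat.prime_two h2, fun h5 => h 5 Nat.prime_five h5⟩, ?_⟩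
    unfold mm
    refine Nat.Coprime.prod_right fun p hp => ?_
    have hpp := S'_prime hp
    unfold S' at hp
    rw [Finset.mem_erase, Finset.mem_erase, Nat.mem_primeFactors] at hp
    rw [Nat.coprime_comm, Nat.Prime.coprime_iff_not_dvd hpp]
    exact h p hpp hp.2.2.2.1
  · rintro ⟨⟨h2, h5⟩, h3⟩
    rw [coprime_iff_primes]
    intro l hl hlQ hlt
    by_cases e2 : l = 2
    · subst e2; exact h2 hlQ hlt
    by_cases e5 : l = 5
    · subst e5; exact h5 hlQ hlt
    have hmem : l ∈ S' Q := by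
      unfold S'
      rw [Finset.mem_erase, Finset.mem_erase, Nat.mem_primeFactors]
      exact ⟨e5, e2, hl, hlQ, hQ.ne'⟩
    have h4 : l ∣ mm Q := Finset.dvd_prod_of_mem _ hmem
    exact (coprime_iff_primes _ _).1 h3 l hl h4 hlt

lemma okd_last (Q b y : ℕ) : okd Q (10 * y + b) ↔ okd Q b := by
  unfold okd
  constructor
  · rintro ⟨h1, h2⟩
    exact ⟨fun h => fun h' => h1 h (by omega), fun h => fun h' => h2 h (by omega)⟩
  · rintro ⟨h1, h2⟩
    exact ⟨fun h => fun h' => h1 h (by omega), fun h => fun h' => h2 h (by omega)⟩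

open Classical in
/-- the indicator of the units -/
noncomputable def un (m : ℕ) (v : ZMod m) : ℝ := if IsUnit v then 1 else 0

/-- the sums over the palindromic strings -/
noncomputable def E (m : ℕ) (z : ZMod m) (n : ℕ) (v : ZMod m) : ℝ := ∑ p ∈ G n, un m (v + z ^ n * (p : ZMod m))

/-- the coefficients -/
def dd (m : ℕ) (z : ZMod m) (j : ℕ) : ZMod m := 10 ^ j + z ^ j

lemma E_succ (m : ℕ) (z : ZMod m) (hz : 10 * z = 1) (n : ℕ) (v : ZMod m) :
    E m z (n + 1) v = stp (dd m z (n + 1)) (E m z n) v := by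
  unfold E stp
  rw [G, Finset.sum_image, Finset.sum_product]
  · refine Finset.sum_congr rfl fun b _ => Finset.sum_congr rfl fun p _ => ?_
    congr 1
    unfold dd
    push_cast
    have h1 : z ^ (n + 1) * 10 ^ (n + 1) = (1 : ZMod m) := by
      rw [← mul_pow, mul_comm, hz, one_pow]
    have e1 : z ^ (n + 1) * (10 * ((b : ZMod m) * 10 ^ (2 * n + 1) + p) + b) =
        (z ^ (n + 1) * 10 ^ (n + 1)) * ((b : ZMod m) * 10 ^ (n + 1)) + (10 * z) * (z ^ n * p) + z ^ (n + 1) * b := by
      ring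
    rw [e1, h1, hz]
    ring
  · intro x hx y hy h
    refine step_inj n ?_ ?_ h
    · exact Finset.mem_range.1 (Finset.mem_product.1 (Finset.mem_coe.1 hx)).1
    · exact Finset.mem_range.1 (Finset.mem_product.1 (Finset.mem_coe.1 hy)).1

lemma E_ev (m : ℕ) (z : ZMod m) (hz : 10 * z = 1) (n : ℕ) : E m z n = ev (dd m z) (E m z 0) n := by
  induction n with
  | zero => rfl
  | succ n ih =>
    funext v
    rw [E_succ m z hz n v, ih]
    rfl

/-- the number of palindromes coprime to `Q` -/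
lemma count_pal (Q : ℕ) (hQ : 0 < Q) (z : ZMod (mm Q)) (hz : 10 * z = 1) (n : ℕ) [DecidablePred (okd Q)] :
    ((pal (n + 1) ∩ {t | Nat.Coprime t Q}).ncard : ℝ) =
      ∑ b ∈ (Finset.Icc 1 9).filter (okd Q), E (mm Q) z n ((b : ZMod (mm Q)) * dd (mm Q) z (n + 1)) := by
  classical
  have h1 : pal (n + 1) ∩ {t | Nat.Coprime t Q} = (((PF n).filter (fun t => Nat.Coprime t Q) : Finset ℕ) : Set ℕ) := by
    rw [pal_succ]
    ext t
    simp
  rw [h1, Set.ncard_coe_finset, Finset.card_filter]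
  push_cast
  unfold PF
  rw [Finset.sum_image, Finset.sum_product, Finset.sum_filter]
  · refine Finset.sum_congr rfl fun b _ => ?_
    unfold E
    by_cases hb : okd Q b
    · rw [if_pos hb]
      refine Finset.sum_congr rfl fun p _ => ?_
      have hzu : IsUnit (z ^ (n + 1)) := by
        refine IsUnit.pow _ ?_
        exact IsUnit.of_mul_eq_one 10 (by rw [mul_comm]; exact hz)
      have h1 : z ^ (n + 1) * 10 ^ (n + 1) = (1 : ZMod (mm Q)) := by
        rw [← mul_pow, mul_comm, hz, one_pow]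
      have e1 : z ^ (n + 1) * ((10 * (b * 10 ^ (2 * n + 1) + p) + b : ℕ) : ZMod (mm Q)) =
          (b : ZMod (mm Q)) * dd (mm Q) z (n + 1) + z ^ n * p := by
        unfold dd
        push_cast
        have e2 : z ^ (n + 1) * (10 * ((b : ZMod (mm Q)) * 10 ^ (2 * n + 1) + p) + b) =
            (z ^ (n + 1) * 10 ^ (n + 1)) * ((b : ZMod (mm Q)) * 10 ^ (n + 1)) + (10 * z) * (z ^ n * p) + z ^ (n + 1) * b := by
          ring
        rw [e2, h1, hz]
        ring
      have key : Nat.Coprime (10 * (b * 10 ^ (2 * n + 1) + p) + b) Q ↔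
          IsUnit ((b : ZMod (mm Q)) * dd (mm Q) z (n + 1) + z ^ n * (p : ZMod (mm Q))) := by
        rw [coprime_split Q _ hQ, okd_last, ← ZMod.isUnit_iff_coprime, ← e1, IsUnit.mul_iff]
        exact ⟨fun h => ⟨hzu, h.2⟩, fun h => ⟨hb, h.2⟩⟩
      unfold un
      by_cases h : IsUnit ((b : ZMod (mm Q)) * dd (mm Q) z (n + 1) + z ^ n * (p : ZMod (mm Q)))
      · rw [if_pos (key.2 h), if_pos h]
      · rw [if_neg (fun h' => h (key.1 h')), if_neg h]
    · rw [if_neg hb]
      refine Finset.sum_eq_zero fun p _ => ?_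
      rw [if_neg]
      rw [coprime_split Q _ hQ, okd_last]
      exact fun h => hb h.1
  · intro x hx y hy h
    refine step_inj n ?_ ?_ h
    · have := (Finset.mem_Icc.1 (Finset.mem_product.1 (Finset.mem_coe.1 hx)).1).2
      show x.1 < 10
      omega
    · have := (Finset.mem_Icc.1 (Finset.mem_product.1 (Finset.mem_coe.1 hy)).1).2
      show y.1 < 10
      omega

/-- the number of admissible last digits -/
noncomputable def Dg (Q : ℕ) : ℕ := by
  classical
  exact ((Finset.Icc 1 9).filter (okd Q)).card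

lemma sum_un (m : ℕ) [NeZero m] : ∑ v : ZMod m, un m v = Nat.totient m := by
  classical
  have h0 : ∑ v : ZMod m, un m v = ((Finset.univ.filter (fun v : ZMod m => IsUnit v)).card : ℝ) := by
    rw [Finset.card_filter]
    push_cast
    refine Finset.sum_congr rfl fun v _ => ?_
    unfold un
    by_cases h : IsUnit v
    · rw [if_pos h, if_pos h]
    · rw [if_neg h, if_neg h]
  rw [h0]
  congr 1
  rw [← ZMod.card_units_eq_totient m, ← Fintype.card_subtype]
  exact (Fintype.card_congr (Equiv.ofBijective (fun u : (ZMod m)ˣ => (⟨u, u.isUnit⟩ : {v : ZMod m // IsUnit v}))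
    ⟨fun a b h => Units.ext (Subtype.mk.inj h), fun v => ⟨v.2.unit, Subtype.ext v.2.unit_spec⟩⟩)).symm

/-- **asymptotic number of the palindromes coprime to `Q`** -/
theorem pal_count (Q : ℕ) (hQ : 0 < Q) :
    Tendsto (fun n : ℕ => ((pal n ∩ {t | Nat.Coprime t Q}).ncard : ℝ) / 10 ^ n) atTop
      (𝓝 (Dg Q * (Nat.totient (mm Q) / (mm Q : ℝ)))) := by
  classical
  rw [← tendsto_add_atTop_iff_nat 1]
  have : NeZero (mm Q) := ⟨(mm_pos Q).ne'⟩
  have hmr : (0 : ℝ) < mm Q := by exact_mod_cast mm_pos Q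
  have hten : IsUnit ((10 : ℕ) : ZMod (mm Q)) := (ZMod.isUnit_iff_coprime 10 _).2 (mm_ten Q)
  obtain ⟨z, hz⟩ := hten.exists_right_inv
  have hz' : 10 * z = (1 : ZMod (mm Q)) := by exact_mod_cast hz
  have h2 : Nat.Coprime 2 (mm Q) := (mm_ten Q).coprime_dvd_left (by norm_num)
  set K := Nat.totient (mm Q) with hKdef
  have hK : 0 < K := Nat.totient_pos.2 (mm_pos Q)
  have hK10 : (10 : ZMod (mm Q)) ^ K = 1 := by
    have h := ZMod.pow_totient (hten.unit)
    have h' := congr_arg (fun u : (ZMod (mm Q))ˣ => (u : ZMod (mm Q))) h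
    simp only [Units.val_pow_eq_pow_val, IsUnit.unit_spec, Units.val_one] at h'
    exact_mod_cast h'
  have hKz : z ^ K = 1 := by
    have : (10 * z) ^ K = (1 : ZMod (mm Q)) := by rw [hz', one_pow]
    rwa [mul_pow, hK10, one_mul] at this
  have hd : ∀ j, dd (mm Q) z (K + j) = dd (mm Q) z j := by
    intro j
    unfold dd
    rw [pow_add, pow_add, hK10, hKz, one_mul, one_mul]
  have hdK : ∀ i, dd (mm Q) z (K * (i + 1)) = 2 := by
    intro i
    unfold dd
    rw [pow_mul, pow_mul, hK10, hKz, one_pow]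
    norm_num
  have hmean : ∑ v, E (mm Q) z 0 v = 10 * Nat.totient (mm Q) := by
    unfold E
    rw [Finset.sum_comm]
    have h1 : ∀ p ∈ G 0, ∑ v, un (mm Q) (v + z ^ 0 * (p : ZMod (mm Q))) = Nat.totient (mm Q) := by
      intro p _
      rw [← sum_un (mm Q)]
      exact Fintype.sum_equiv (Equiv.addRight (z ^ 0 * (p : ZMod (mm Q)))) _ _ (fun v => rfl)
    rw [Finset.sum_congr rfl h1]
    simp [G]
  rw [Metric.tendsto_nhds]
  intro ε hε
  filter_upwards [mix h2 (dd (mm Q) z) K hK hd hdK (E (mm Q) z 0) ε hε] with n hn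
  rw [count_pal Q hQ z hz' n, Real.dist_eq]
  set D := (Finset.Icc 1 9).filter (okd Q) with hD
  have hDg : Dg Q = D.card := by unfold Dg; rfl
  have hDle : (D.card : ℝ) ≤ 9 := by
    have : D.card ≤ 9 := by
      calc D.card ≤ (Finset.Icc 1 9).card := Finset.card_filter_le _ _
        _ = 9 := by simp
    exact_mod_cast this
  have e1 : (∑ b ∈ D, E (mm Q) z n ((b : ZMod (mm Q)) * dd (mm Q) z (n + 1))) / 10 ^ (n + 1) -
      (Dg Q : ℝ) * (Nat.totient (mm Q) / (mm Q : ℝ)) =
      ∑ b ∈ D, (1 / 10 : ℝ) * (ev (dd (mm Q) z) (E (mm Q) z 0) n ((b : ZMod (mm Q)) * dd (mm Q) z (n + 1)) / 10 ^ n -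
        (∑ v, E (mm Q) z 0 v) / (mm Q)) := by
    rw [← Finset.mul_sum, Finset.sum_sub_distrib, Finset.sum_const, nsmul_eq_mul, hmean, hDg, ← Finset.sum_div,
      ← E_ev (mm Q) z hz' n, pow_succ]
    field_simp
  rw [e1]
  calc |∑ b ∈ D, (1 / 10 : ℝ) * (ev (dd (mm Q) z) (E (mm Q) z 0) n ((b : ZMod (mm Q)) * dd (mm Q) z (n + 1)) / 10 ^ n -
        (∑ v, E (mm Q) z 0 v) / (mm Q))| ≤ ∑ b ∈ D, (1 / 10 : ℝ) * ε := by
        refine (Finset.abs_sum_le_sum_abs _ _).trans (Finset.sum_le_sum fun b _ => ?_)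
        rw [abs_mul, abs_of_pos (by norm_num : (0:ℝ) < 1 / 10)]
        exact mul_le_mul_of_nonneg_left (hn _) (by norm_num)
    _ = D.card * (1 / 10 * ε) := by rw [Finset.sum_const, nsmul_eq_mul]
    _ < ε := by nlinarith

/-- the local factors at two and five -/
lemma const_eq (Q : ℕ) (hQ : 0 < Q) :
    (Dg Q : ℝ) * (Nat.totient (mm Q) / (mm Q : ℝ)) * ((Q : ℝ) / Nat.totient Q) =
      if Nat.Coprime Q 10 then 9 else 10 := by
  classical
  have hmr : (0 : ℝ) < mm Q := by exact_mod_cast mm_pos Q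
  have hQr : (0 : ℝ) < Q := by exact_mod_cast hQ
  have hφ : (0 : ℝ) < Nat.totient Q := by exact_mod_cast Nat.totient_pos.2 hQ
  have hpf : (mm Q).primeFactors = S' Q := Nat.primeFactors_prod fun p hp => S'_prime hp
  have f1 : (Nat.totient (mm Q) : ℝ) / mm Q = ∏ p ∈ S' Q, (1 - (p : ℝ)⁻¹) := by
    have h := Nat.totient_eq_mul_prod_factors (mm Q)
    rw [hpf] at h
    have h' : (Nat.totient (mm Q) : ℝ) = mm Q * ∏ p ∈ S' Q, (1 - (p : ℝ)⁻¹) := by
      have h3 := congr_arg (fun q : ℚ => (q : ℝ)) h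
      push_cast at h3
      exact h3
    rw [h']
    field_simp
  have f2 : (Nat.totient Q : ℝ) / Q = ∏ p ∈ Q.primeFactors, (1 - (p : ℝ)⁻¹) := by
    have h := Nat.totient_eq_mul_prod_factors Q
    have h' : (Nat.totient Q : ℝ) = Q * ∏ p ∈ Q.primeFactors, (1 - (p : ℝ)⁻¹) := by
      have h3 := congr_arg (fun q : ℚ => (q : ℝ)) h
      push_cast at h3
      exact h3
    rw [h']
    field_simp
  have m2 : 2 ∈ Q.primeFactors ↔ 2 ∣ Q := by
    rw [Nat.mem_primeFactors]
    exact ⟨fun h => h.2.1, fun h => ⟨Nat.prime_two, h, hQ.ne'⟩⟩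
  have m5 : 5 ∈ Q.primeFactors.erase 2 ↔ 5 ∣ Q := by
    rw [Finset.mem_erase, Nat.mem_primeFactors]
    exact ⟨fun h => h.2.2.1, fun h => ⟨by norm_num, Nat.prime_five, h, hQ.ne'⟩⟩
  have f3 : ∏ p ∈ Q.primeFactors, (1 - (p : ℝ)⁻¹) =
      (if 2 ∣ Q then 1 / 2 else 1) * ((if 5 ∣ Q then 4 / 5 else 1) * ∏ p ∈ S' Q, (1 - (p : ℝ)⁻¹)) := by
    have g1 : ∏ p ∈ Q.primeFactors, (1 - (p : ℝ)⁻¹) =
        (if 2 ∣ Q then 1 / 2 else 1) * ∏ p ∈ Q.primeFactors.erase 2, (1 - (p : ℝ)⁻¹) := by
      by_cases h : 2 ∣ Q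
      · rw [if_pos h, ← Finset.mul_prod_erase _ _ (m2.2 h)]
        norm_num
      · rw [if_neg h, one_mul, Finset.erase_eq_of_notMem (fun h' => h (m2.1 h'))]
    have g2 : ∏ p ∈ Q.primeFactors.erase 2, (1 - (p : ℝ)⁻¹) =
        (if 5 ∣ Q then 4 / 5 else 1) * ∏ p ∈ S' Q, (1 - (p : ℝ)⁻¹) := by
      unfold S'
      by_cases h : 5 ∣ Q
      · rw [if_pos h, ← Finset.mul_prod_erase _ _ (m5.2 h)]
        norm_num
      · rw [if_neg h, one_mul, Finset.erase_eq_of_notMem (fun h' => h (m5.1 h'))]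
    rw [g1, g2]
  have f4 : 0 < ∏ p ∈ S' Q, (1 - (p : ℝ)⁻¹) := by
    rw [← f1]
    have := Nat.totient_pos.2 (mm_pos Q)
    have : (0 : ℝ) < Nat.totient (mm Q) := by exact_mod_cast this
    positivity
  have f5 : (Q : ℝ) / Nat.totient Q = ((Nat.totient Q : ℝ) / Q)⁻¹ := (inv_div _ _).symm
  have f6 : Nat.Coprime Q 10 ↔ ¬ 2 ∣ Q ∧ ¬ 5 ∣ Q := by
    rw [show (10 : ℕ) = 2 * 5 by norm_num, Nat.coprime_mul_iff_right, Nat.coprime_comm, Nat.Prime.coprime_iff_not_dvd Nat.prime_two,
      Nat.coprime_comm, Nat.Prime.coprime_iff_not_dvd Nat.prime_five]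
  have f7 : Dg Q = (if 2 ∣ Q then (if 5 ∣ Q then 4 else 5) else (if 5 ∣ Q then 8 else 9)) := by
    unfold Dg okd
    by_cases a : 2 ∣ Q <;> by_cases b : 5 ∣ Q <;> simp [a, b] <;> decide
  rw [f5, f1, f2, f3, f7]
  set P := ∏ p ∈ S' Q, (1 - (p : ℝ)⁻¹)
  by_cases a : 2 ∣ Q <;> by_cases b : 5 ∣ Q <;> simp only [f6, a, b, if_true, if_false, not_true_eq_false,
    not_false_eq_true, and_true, and_false, and_self] <;> field_simp <;> norm_num

end Pool.Agent.N256.PL
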